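import Pool.Agent.NPC.Defs

/-!
# Permutation classes, grid-width, and pattern-restricted permutation pattern matching

A permutation of length `n` is given in one-line form, as a list containing each of the numbers
`0, ..., n - 1` once; its diagram is the set of the points `(i, π_i)`, `i < n`.
-/

namespace Pool.Agent.H593R3.PPM

open Pool.Agent.NPC

/-- The list `π` is a permutation (of the numbers `0, ..., n - 1`, where `n` is its length). -/
def IsPerm (π : List ℕ) : Prop := π.Perm (List.range π.length)

/-- `τ` contains `π`: some subsequence of `τ` of length `|π|` has the same relative order as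
`π`. -/
def Contains (τ π : List ℕ) : Prop :=
  ∃ f : Fin π.length → Fin τ.length, StrictMono f ∧ ∀ i j, π[i] < π[j] ↔ τ[f i] < τ[f j]

/-- A permutation class: a set of permutations containing every permutation contained in one of
its members. -/
def PermClass (C : Set (List ℕ)) : Prop :=
  (∀ π ∈ C, IsPerm π) ∧ ∀ τ ∈ C, ∀ π, IsPerm π → Contains τ π → π ∈ C

/-- The least number of pairwise disjoint intervals of integers whose union is `A`, that is, the
number of the maximal intervals of `A`, each of them being counted through its last element. -/
def intv (A : Finset ℕ) : ℕ := (A.filter (fun a => a + 1 ∉ A)).card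

/-- The grid-complexity of the set of the points `(i, π_i)`, `i ∈ A`, of the diagram of `π`. -/
def cx (π : List ℕ) (A : Finset ℕ) : ℕ := max (intv A) (intv (A.image fun i => π.getD i 0))

/-- Rooted binary trees whose leaves are labelled by numbers; the label `i` stands for the point
`(i, π_i)` of the diagram of a permutation `π`. -/
inductive GTree : Type
  | leaf (i : ℕ) : GTree
  | node (l r : GTree) : GTree

/-- The labels of the leaves. -/
def GTree.leaves : GTree → List ℕ
  | leaf i => [i]
  | node l r => l.leaves ++ r.leaves

/-- The maximum, over the vertices `v` of the tree, of the grid-complexity of the set of the labels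
of the leaves below `v`. -/
def GTree.width (π : List ℕ) : GTree → ℕ
  | leaf i => cx π {i}
  | node l r => max (cx π (l.leaves ++ r.leaves).toFinset) (max (l.width π) (r.width π))

/-- The grid-width of a permutation: the minimum width of its grid trees, which are the trees
whose leaves are labelled bijectively by the points of its diagram. -/
noncomputable def gw (π : List ℕ) : ℕ :=
  sInf {w | ∃ t : GTree, t.leaves.Perm (List.range π.length) ∧ t.width π = w}

/-- The grid-width is unbounded on `C`. -/
def UnboundedGW (C : Set (List ℕ)) : Prop := ∀ g : ℕ, ∃ π ∈ C, g < gw π

/-- `C`-Pattern PPM: given a pattern `π ∈ C` (first component) and a permutation `τ` (second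
component), does `τ` contain `π`? -/
def PatternPPM (C : Set (List ℕ)) (p : List ℕ × List ℕ) : Prop :=
  p.1 ∈ C ∧ IsPerm p.2 ∧ Contains p.2 p.1

end Pool.Agent.H593R3.PPM
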