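import Mathlib
import Pool.Agent.H593R3.PPM.Defs

/-!
# Grid trees over sets with two orders
-/

namespace Pool.Agent.H593R3.PPM

open Finset

section Abs

variable {V W : Type} [DecidableEq V] [DecidableEq W]

/-- `A` is partitioned into `g` sets which are convex in `S` for the order given by `X`. -/
def Cvx (X : V → ℕ) (S A : Finset V) (g : ℕ) : Prop :=
  ∃ c : V → ℕ, (∀ v ∈ A, c v < g) ∧
    ∀ u ∈ A, ∀ v ∈ A, c u = c v → ∀ w ∈ S, X u < X w → X w < X v → w ∈ A ∧ c w = c u

theorem Cvx.mono {X : V → ℕ} {S A : Finset V} {g g' : ℕ} (h : Cvx X S A g) (hg : g ≤ g') :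
    Cvx X S A g' := by
  obtain ⟨c, h1, h2⟩ := h
  exact ⟨c, fun v hv => (h1 v hv).trans_le hg, h2⟩

theorem cvx_single (X : V → ℕ) (S : Finset V) (v : V) {g : ℕ} (hg : 1 ≤ g) : Cvx X S {v} g := by
  refine ⟨fun _ => 0, fun _ _ => hg, ?_⟩
  intro u hu w hw _ z _ h1 h2
  rw [mem_singleton] at hu hw
  subst hu hw
  omega

theorem Cvx.erase {X : V → ℕ} {S A : Finset V} {g : ℕ} (h : Cvx X S A g) (u : V) :
    Cvx X S (A.erase u) (g + 1) := by
  classical
  obtain ⟨c, h1, h2⟩ := h
  refine ⟨fun v => if c v = c u ∧ X u < X v then g else c v, ?_, ?_⟩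
  · intro v hv
    have := h1 v (mem_of_mem_erase hv)
    dsimp only
    split_ifs <;> omega
  · intro a ha b hb hab w hw h3 h4
    have ha' := mem_of_mem_erase ha
    have hb' := mem_of_mem_erase hb
    have hau := ne_of_mem_erase ha
    have e1 := h1 a ha'
    have e2 := h1 b hb'
    dsimp only at hab ⊢
    rw [mem_erase]
    by_cases p : c a = c u ∧ X u < X a
    · rw [if_pos p] at hab
      have q : c b = c u ∧ X u < X b := by
        by_contra q
        rw [if_neg q] at hab
        omega
      obtain ⟨h5, h6⟩ := h2 a ha' b hb' (p.1.trans q.1.symm) w hw h3 h4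
      refine ⟨⟨?_, h5⟩, ?_⟩
      · rintro rfl; omega
      · rw [if_pos p, if_pos ⟨h6.trans p.1, by omega⟩]
    · rw [if_neg p] at hab
      have q : ¬ (c b = c u ∧ X u < X b) := by
        intro q
        rw [if_pos q] at hab
        omega
      rw [if_neg q] at hab
      obtain ⟨h5, h6⟩ := h2 a ha' b hb' hab w hw h3 h4
      have key : ¬ (c a = c u ∧ X u ≤ X w) := by
        rintro ⟨r, s⟩
        exact q ⟨hab ▸ r, by omega⟩
      refine ⟨⟨?_, h5⟩, ?_⟩
      · rintro rfl
        exact key ⟨h6.symm, le_rfl⟩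
      · rw [if_neg p, if_neg (fun h => key ⟨h6 ▸ h.1, h.2.le⟩), h6]

/-- Sets built by grid trees all of whose vertices have complexity at most `g`. -/
inductive Bld (X Y : V → ℕ) (S : Finset V) (g : ℕ) : Finset V → Prop
  | leaf (v : V) (hv : v ∈ S) : Bld X Y S g {v}
  | node (A B : Finset V) (hA : Bld X Y S g A) (hB : Bld X Y S g B) (hd : Disjoint A B)
      (hX : Cvx X S (A ∪ B) g) (hY : Cvx Y S (A ∪ B) g) : Bld X Y S g (A ∪ B)

variable {X Y : V → ℕ} {S : Finset V} {g : ℕ}

theorem Bld.nonempty {A : Finset V} (h : Bld X Y S g A) : A.Nonempty := by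
  induction h with
  | leaf v hv => exact singleton_nonempty v
  | node A B hA hB hd hX hY ihA ihB => exact ihA.mono subset_union_left

theorem Bld.subset {A : Finset V} (h : Bld X Y S g A) : A ⊆ S := by
  induction h with
  | leaf v hv => simpa using hv
  | node A B hA hB hd hX hY ihA ihB => exact union_subset ihA ihB

theorem Bld.cvx {A : Finset V} (h : Bld X Y S g A) (hg : 1 ≤ g) : Cvx X S A g ∧ Cvx Y S A g := by
  cases h with
  | leaf v hv => exact ⟨cvx_single X S v hg, cvx_single Y S v hg⟩
  | node A B hA hB hd hX hY => exact ⟨hX, hY⟩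

theorem Bld.mono {A : Finset V} {g' : ℕ} (h : Bld X Y S g A) (hg : g ≤ g') : Bld X Y S g' A := by
  induction h with
  | leaf v hv => exact Bld.leaf v hv
  | node A B hA hB hd hX hY ihA ihB => exact Bld.node A B ihA ihB hd (hX.mono hg) (hY.mono hg)

/-- Built or empty. -/
def Bl (X Y : V → ℕ) (S : Finset V) (g : ℕ) (A : Finset V) : Prop := A = ∅ ∨ Bld X Y S g A

theorem Bl.join {A B : Finset V} (hA : Bl X Y S g A) (hB : Bl X Y S g B) (hd : Disjoint A B)
    (hX : Cvx X S (A ∪ B) g) (hY : Cvx Y S (A ∪ B) g) : Bl X Y S g (A ∪ B) := by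
  rcases hA with rfl | hA
  · rw [empty_union]; exact hB
  rcases hB with rfl | hB
  · rw [union_empty]; exact Or.inr hA
  exact Or.inr (Bld.node A B hA hB hd hX hY)

theorem Bl.small {A : Finset V} (hA : A ⊆ S) (h : A.card ≤ 1) : Bl X Y S g A := by
  rcases A.eq_empty_or_nonempty with rfl | hne
  · exact Or.inl rfl
  · obtain ⟨v, rfl⟩ := card_eq_one.1 (le_antisymm h hne.card_pos)
    exact Or.inr (Bld.leaf v (by simpa using hA))

/-- Pull back along an embedding. -/
theorem Cvx.pull {X' : W → ℕ} {S' : Finset W} {h : W → V} (hS : ∀ w ∈ S', h w ∈ S)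
    (hX : ∀ a ∈ S', ∀ b ∈ S', X' a < X' b → X (h a) < X (h b)) {A : Finset V}
    (hA : Cvx X S A g) : Cvx X' S' (S'.filter (fun w => h w ∈ A)) g := by
  obtain ⟨c, h1, h2⟩ := hA
  refine ⟨fun w => c (h w), ?_, ?_⟩
  · intro v hv
    exact h1 _ (mem_filter.1 hv).2
  · intro u hu v hv huv w hw h3 h4
    rw [mem_filter] at hu hv
    obtain ⟨h5, h6⟩ := h2 _ hu.2 _ hv.2 huv (h w) (hS w hw) (hX _ hu.1 _ hw h3) (hX _ hw _ hv.1 h4)
    exact ⟨mem_filter.2 ⟨hw, h5⟩, h6⟩

theorem Bl.pull {X' Y' : W → ℕ} {S' : Finset W} {h : W → V} (hS : ∀ w ∈ S', h w ∈ S)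
    (hinj : Set.InjOn h (S' : Set W))
    (hX : ∀ a ∈ S', ∀ b ∈ S', X' a < X' b → X (h a) < X (h b))
    (hY : ∀ a ∈ S', ∀ b ∈ S', Y' a < Y' b → Y (h a) < Y (h b)) {A : Finset V}
    (hA : Bl X Y S g A) : Bl X' Y' S' g (S'.filter (fun w => h w ∈ A)) := by
  rcases hA with rfl | hA
  · left; simp
  induction hA with
  | leaf v hv =>
    refine Bl.small (filter_subset _ _) ?_
    rw [card_le_one]
    intro a ha b hb
    rw [mem_filter, mem_singleton] at ha hb
    exact hinj ha.1 hb.1 (ha.2.trans hb.2.symm)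
  | node A B hA hB hd hX' hY' ihA ihB =>
    have e : S'.filter (fun w => h w ∈ A ∪ B) =
        S'.filter (fun w => h w ∈ A) ∪ S'.filter (fun w => h w ∈ B) := by
      ext w; simp only [mem_filter, mem_union]; tauto
    rw [e]
    refine ihA.join ihB ?_ ?_ ?_
    · rw [disjoint_left]
      intro w h1 h2
      rw [mem_filter] at h1 h2
      exact disjoint_left.1 hd h1.2 h2.2
    · rw [← e]; exact Cvx.pull hS hX hX'
    · rw [← e]; exact Cvx.pull hS hY hY'

/-- The number of maximal intervals, in terms of convex partitions. -/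
theorem intv_le_iff {n : ℕ} (hinj : Set.InjOn Y (S : Set V)) (him : S.image Y = range n)
    {A : Finset V} (hA : A ⊆ S) : intv (A.image Y) ≤ g ↔ Cvx Y S A g := by
  classical
  constructor
  · intro h
    set B := A.image Y with hB
    set E := B.filter (fun a => a + 1 ∉ B) with hE
    have hmemB : ∀ w ∈ S, Y w ∈ B → w ∈ A := by
      intro w hw hwB
      obtain ⟨a, ha, hae⟩ := mem_image.1 hwB
      rwa [← hinj (hA ha) hw hae]
    refine ⟨fun v => (E.filter (· < Y v)).card, ?_, ?_⟩
    · intro v hv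
      have hvB : Y v ∈ B := mem_image_of_mem _ hv
      have hne : B.Nonempty := ⟨_, hvB⟩
      have hm : B.max' hne ∈ E := by
        rw [hE, mem_filter]
        refine ⟨max'_mem _ _, fun h' => ?_⟩
        have := le_max' _ _ h'
        omega
      refine lt_of_lt_of_le (card_lt_card ?_) h
      refine (Finset.ssubset_iff_of_subset (filter_subset _ _)).2 ⟨_, hm, ?_⟩
      rw [mem_filter]
      rintro ⟨-, h'⟩
      have := le_max' _ _ hvB
      omega
    · intro u hu v hv huv w hw h1 h2
      dsimp only at huv ⊢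
      have hwA : w ∈ A := by
        by_contra hwA
        have hwB : Y w ∉ B := fun h' => hwA (hmemB w hw h')
        have hne : (B.filter (· < Y w)).Nonempty :=
          ⟨Y u, mem_filter.2 ⟨mem_image_of_mem _ hu, h1⟩⟩
        set b := (B.filter (· < Y w)).max' hne with hb
        have hbm : b ∈ B.filter (· < Y w) := max'_mem _ _
        rw [mem_filter] at hbm
        have hub : Y u ≤ b := le_max' _ _ (mem_filter.2 ⟨mem_image_of_mem _ hu, h1⟩)
        have hbE : b ∈ E := by
          rw [hE, mem_filter]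
          refine ⟨hbm.1, fun h' => ?_⟩
          rcases lt_or_ge (b + 1) (Y w) with h3 | h3
          · have := le_max' _ _ (mem_filter.2 ⟨h', h3⟩ : b + 1 ∈ B.filter (· < Y w))
            omega
          · have : b + 1 = Y w := by omega
            rw [this] at h'
            exact hwB h'
        have : (E.filter (· < Y u)).card < (E.filter (· < Y v)).card := by
          refine card_lt_card ?_
          refine (Finset.ssubset_iff_of_subset ?_).2 ⟨b, ?_, ?_⟩
          · intro x hx
            rw [mem_filter] at hx ⊢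
            exact ⟨hx.1, by omega⟩
          · rw [mem_filter]; exact ⟨hbE, by omega⟩
          · rw [mem_filter]; omega
        omega
      refine ⟨hwA, ?_⟩
      have e1 : (E.filter (· < Y u)).card ≤ (E.filter (· < Y w)).card :=
        card_le_card fun x hx => by rw [mem_filter] at hx ⊢; exact ⟨hx.1, by omega⟩
      have e2 : (E.filter (· < Y w)).card ≤ (E.filter (· < Y v)).card :=
        card_le_card fun x hx => by rw [mem_filter] at hx ⊢; exact ⟨hx.1, by omega⟩
      omega
  · rintro ⟨c, h1, h2⟩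
    have hs : ∀ b ∈ A.image Y, ∃ v, v ∈ A ∧ Y v = b := fun b hb => by
      obtain ⟨v, hv, rfl⟩ := mem_image.1 hb
      exact ⟨v, hv, rfl⟩
    rw [intv, ← card_range g]
    rcases A.eq_empty_or_nonempty with rfl | ⟨v0, hv0⟩
    · simp
    haveI : Nonempty V := ⟨v0⟩
    choose! s hs1 hs2 using hs
    refine card_le_card_of_injOn (fun b => c (s b)) ?_ ?_
    · intro b hb
      have hb' : b ∈ A.image Y := (mem_filter.1 (mem_coe.1 hb)).1
      simpa using h1 _ (hs1 b hb')
    · have key : ∀ b b', b ∈ (A.image Y).filter (fun a => a + 1 ∉ A.image Y) →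
          b' ∈ (A.image Y).filter (fun a => a + 1 ∉ A.image Y) → c (s b) = c (s b') → ¬ b < b' := by
        intro b b' hb hb' hc hlt
        rw [mem_filter] at hb hb'
        have hb1 : b' ∈ range n := by
          rw [← him]
          exact image_subset_image hA hb'.1
        have hle : b + 1 < n := by
          have := mem_range.1 hb1
          omega
        have : b + 1 ∈ S.image Y := by rw [him]; exact mem_range.2 hle
        obtain ⟨w, hw, hwe⟩ := mem_image.1 this
        have hne : b + 1 ≠ b' := fun h => hb.2 (h ▸ hb'.1)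
        have := (h2 _ (hs1 b hb.1) _ (hs1 b' hb'.1) hc w hw (by rw [hs2 b hb.1, hwe]; omega)
          (by rw [hs2 b' hb'.1, hwe]; omega)).1
        exact hb.2 (mem_image.2 ⟨w, this, hwe⟩)
      intro b hb b' hb' hc
      have h3 := key b b' (mem_coe.1 hb) (mem_coe.1 hb') hc
      have h4 := key b' b (mem_coe.1 hb') (mem_coe.1 hb) hc.symm
      omega

end Abs

end Pool.Agent.H593R3.PPM
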