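import Pool.Agent.H593R3.PPM.Gw

/-!
# The algorithm for patterns of bounded grid-width: definition and soundness
-/

namespace Pool.Agent.H593R3.PPM

open Finset

/-- a frame: an interval `[l, r)` of the pattern and an interval `[l', r')` of the text -/
abbrev Fr : Type := ℕ × ℕ × ℕ × ℕ

/-- an item -/
abbrev It : Type := List Fr × List Fr

/-- `i` is in the union of the pattern intervals -/
def inI (P : List Fr) (i : ℕ) : Bool := P.any (fun p => decide (p.1 ≤ i) && decide (i < p.2.1))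

/-- the frames of two disjoint sets are in the same order in the pattern and in the text -/
def sep (P Q : List Fr) : Bool :=
  P.all (fun p => Q.all (fun q =>
    (decide (p.2.1 ≤ q.1) && decide (p.2.2.2 ≤ q.2.2.1)) ||
      (decide (q.2.1 ≤ p.1) && decide (q.2.2.2 ≤ p.2.2.1))))

/-- every frame of `P` is contained in a frame of `U` -/
def sub (P U : List Fr) : Bool :=
  P.all (fun p => U.any (fun u => (decide (u.1 ≤ p.1) && decide (p.2.1 ≤ u.2.1)) &&
    (decide (u.2.2.1 ≤ p.2.2.1) && decide (p.2.2.2 ≤ u.2.2.2))))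

/-- the item `u` follows from the items `a` and `b` -/
def rule (π : List ℕ) (a b u : It) : Bool :=
  (List.range π.length).all (fun i =>
    (decide (inI u.1 i = (inI a.1 i || inI b.1 i)) && !(inI a.1 i && inI b.1 i)) &&
      decide (inI u.2 (π.getD i 0) = (inI a.2 (π.getD i 0) || inI b.2 (π.getD i 0)))) &&
  ((sep a.1 b.1 && sep a.2 b.2) && ((sub a.1 u.1 && sub b.1 u.1) && (sub a.2 u.2 && sub b.2 u.2)))

/-- the items of single points -/
def lvs (π τ : List ℕ) : List It :=
  (List.range π.length).flatMap (fun i => (List.range τ.length).map (fun j =>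
    (([(i, i + 1, j, j + 1)] : List Fr),
      ([(π.getD i 0, π.getD i 0 + 1, τ.getD j 0, τ.getD j 0 + 1)] : List Fr))))

/-- all frames with entries less than `m` -/
def frs (m : ℕ) : List Fr :=
  (List.range m).flatMap (fun a => (List.range m).flatMap (fun b =>
    (List.range m).flatMap (fun c => (List.range m).map (fun d => (a, b, c, d)))))

/-- all lists of at most `g` frames with entries less than `m` -/
def lsts : ℕ → ℕ → List (List Fr)
  | 0, _ => [[]]
  | g + 1, m => lsts g m ++ (lsts g m).flatMap (fun P => (frs m).map (fun q => q :: P))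

/-- all items -/
def itms (g m : ℕ) : List It := (lsts g m).flatMap (fun P => (lsts g m).map (fun Q => (P, Q)))

/-- one round -/
def stp (g : ℕ) (π τ : List ℕ) (U : List It) : List It :=
  lvs π τ ++ (itms g (π.length + τ.length + 1)).filter
    (fun u => U.any (fun a => U.any (fun b => rule π a b u)))

/-- the algorithm -/
def alg (g : ℕ) (π τ : List ℕ) : Bool :=
  decide (π.length = 0) || ((stp g π τ)^[π.length] (lvs π τ)).any
    (fun u => (List.range π.length).all (fun i => inI u.1 i))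

theorem inI_iff {P : List Fr} {i : ℕ} : inI P i = true ↔ ∃ p ∈ P, p.1 ≤ i ∧ i < p.2.1 := by
  simp [inI]

theorem sep_iff {P Q : List Fr} : sep P Q = true ↔ ∀ p ∈ P, ∀ q ∈ Q,
    (p.2.1 ≤ q.1 ∧ p.2.2.2 ≤ q.2.2.1) ∨ (q.2.1 ≤ p.1 ∧ q.2.2.2 ≤ p.2.2.1) := by
  simp [sep]

theorem sub_iff {P U : List Fr} : sub P U = true ↔ ∀ p ∈ P, ∃ u ∈ U,
    (u.1 ≤ p.1 ∧ p.2.1 ≤ u.2.1) ∧ (u.2.2.1 ≤ p.2.2.1 ∧ p.2.2.2 ≤ u.2.2.2) := by
  simp [sub]

theorem rule_iff {π : List ℕ} {a b u : It} : rule π a b u = true ↔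
    (∀ i < π.length, (inI u.1 i = (inI a.1 i || inI b.1 i) ∧ ¬ (inI a.1 i = true ∧ inI b.1 i = true)) ∧
      inI u.2 (yv π i) = (inI a.2 (yv π i) || inI b.2 (yv π i))) ∧
    (sep a.1 b.1 = true ∧ sep a.2 b.2 = true) ∧ (sub a.1 u.1 = true ∧ sub b.1 u.1 = true) ∧
      (sub a.2 u.2 = true ∧ sub b.2 u.2 = true) := by
  rw [rule, Bool.and_eq_true, List.all_eq_true]
  simp only [Bool.and_eq_true, List.mem_range, decide_eq_true_eq, Bool.not_eq_true', yv,
    Bool.and_eq_false_iff, not_and_or, Bool.not_eq_true]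

theorem mem_lsts_length : ∀ {g m : ℕ} {P : List Fr}, P ∈ lsts g m → P.length ≤ g
  | 0, m, P, h => by
    rw [lsts, List.mem_singleton] at h
    subst h; simp
  | g + 1, m, P, h => by
    rw [lsts, List.mem_append, List.mem_flatMap] at h
    rcases h with h | ⟨Q, hQ, h⟩
    · have := mem_lsts_length h; omega
    · rw [List.mem_map] at h
      obtain ⟨q, -, rfl⟩ := h
      have := mem_lsts_length hQ
      simp only [List.length_cons]; omega

theorem mem_frs {m : ℕ} {p : Fr} : p ∈ frs m ↔ p.1 < m ∧ p.2.1 < m ∧ p.2.2.1 < m ∧ p.2.2.2 < m := by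
  obtain ⟨a, b, c, d⟩ := p
  simp only [frs, List.mem_flatMap, List.mem_map, List.mem_range, Prod.mk.injEq]
  constructor
  · rintro ⟨a', h1, b', h2, c', h3, d', h4, rfl, rfl, rfl, rfl⟩
    exact ⟨h1, h2, h3, h4⟩
  · rintro ⟨h1, h2, h3, h4⟩
    exact ⟨a, h1, b, h2, c, h3, d, h4, rfl, rfl, rfl, rfl⟩

theorem mem_lsts_of : ∀ {g m : ℕ} {P : List Fr}, P.length ≤ g → (∀ p ∈ P, p ∈ frs m) →
    P ∈ lsts g m
  | 0, m, P, h, _ => by
    have : P = [] := List.length_eq_zero_iff.1 (by omega)
    subst this; simp [lsts]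
  | g + 1, m, [], _, _ => by
    rw [lsts, List.mem_append]
    exact Or.inl (mem_lsts_of (by simp) (by simp))
  | g + 1, m, q :: P, h, hP => by
    rw [lsts, List.mem_append, List.mem_flatMap]
    refine Or.inr ⟨P, mem_lsts_of (by simpa using h) (fun p hp => hP p (List.mem_cons_of_mem _ hp)),
      ?_⟩
    exact List.mem_map.2 ⟨q, hP q List.mem_cons_self, rfl⟩

theorem mem_itms {g m : ℕ} {u : It} : u ∈ itms g m ↔ u.1 ∈ lsts g m ∧ u.2 ∈ lsts g m := by
  obtain ⟨P, Q⟩ := u
  simp only [itms, List.mem_flatMap, List.mem_map, Prod.mk.injEq]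
  constructor
  · rintro ⟨P', h1, Q', h2, rfl, rfl⟩
    exact ⟨h1, h2⟩
  · rintro ⟨h1, h2⟩
    exact ⟨P, h1, Q, h2, rfl, rfl⟩

theorem mem_lvs {π τ : List ℕ} {u : It} : u ∈ lvs π τ ↔ ∃ i < π.length, ∃ j < τ.length,
    u = ([(i, i + 1, j, j + 1)], [(yv π i, yv π i + 1, yv τ j, yv τ j + 1)]) := by
  simp only [lvs, List.mem_flatMap, List.mem_map, List.mem_range, yv]
  constructor
  · rintro ⟨i, h1, j, h2, rfl⟩
    exact ⟨i, h1, j, h2, rfl⟩
  · rintro ⟨i, h1, j, h2, rfl⟩
    exact ⟨i, h1, j, h2, rfl⟩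

/-- Unions of few intervals have small complexity. -/
theorem cvx_of_list {π : List ℕ} (_hπ : IsPerm π) {Z : ℕ → ℕ} {g : ℕ}
    (hinj : Set.InjOn Z ((range π.length : Finset ℕ) : Set ℕ))
    (him : (range π.length).image Z = range π.length) {P : List Fr} (hP : P.length ≤ g)
    {A : Finset ℕ} (hA : ∀ i, i ∈ A ↔ i < π.length ∧ inI P (Z i) = true) :
    Cvx Z (range π.length) A g := by
  classical
  rw [← intv_le_iff hinj him (fun i hi => mem_range.2 ((hA i).1 hi).1)]
  have hB : ∀ b ∈ A.image Z, ∃ k, k < P.length ∧ ∃ p, P[k]? = some p ∧ p.1 ≤ b ∧ b < p.2.1 := by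
    intro b hb
    obtain ⟨i, hi, rfl⟩ := mem_image.1 hb
    obtain ⟨p, hp, h1, h2⟩ := inI_iff.1 ((hA i).1 hi).2
    obtain ⟨k, hk, rfl⟩ := List.getElem_of_mem hp
    exact ⟨k, hk, _, List.getElem?_eq_getElem hk, h1, h2⟩
  choose! k hk p hp h1 h2 using hB
  rw [intv]
  refine le_trans ?_ hP
  rw [← card_range P.length]
  refine card_le_card_of_injOn k ?_ ?_
  · intro b hb
    rw [mem_coe, mem_range]
    exact hk b (mem_filter.1 (mem_coe.1 hb)).1
  · have key : ∀ b b', b ∈ (A.image Z).filter (fun a => a + 1 ∉ A.image Z) →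
        b' ∈ (A.image Z).filter (fun a => a + 1 ∉ A.image Z) → k b = k b' → ¬ b < b' := by
      intro b b' hb hb' hkk hlt
      rw [mem_filter] at hb hb'
      have hb1 : b' ∈ range π.length := by
        rw [← him]
        exact image_subset_image (fun i hi => mem_range.2 ((hA i).1 hi).1) hb'.1
      have hle : b + 1 < π.length ∨ b + 1 = b' := by
        have := mem_range.1 hb1
        omega
      have hlt' : b + 1 < π.length := by
        have := mem_range.1 hb1
        omega
      have : b + 1 ∈ (range π.length).image Z := by rw [him]; exact mem_range.2 hlt'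
      obtain ⟨w, hw, hwe⟩ := mem_image.1 this
      have e : p b = p b' := by
        have e1 := hp b hb.1
        have e2 := hp b' hb'.1
        rw [hkk, e2] at e1
        exact (Option.some.inj e1).symm
      refine hb.2 (mem_image.2 ⟨w, (hA w).2 ⟨mem_range.1 hw, ?_⟩, hwe⟩)
      rw [inI_iff, hwe]
      refine ⟨p b, List.mem_of_getElem? (hp b hb.1), ?_, ?_⟩
      · have := h1 b hb.1
        omega
      · have := h2 b' hb'.1
        rw [← e] at this
        omega
    intro b hb b' hb' hc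
    have h3 := key b b' (mem_coe.1 hb) (mem_coe.1 hb') hc
    have h4 := key b' b (mem_coe.1 hb') (mem_coe.1 hb) hc.symm
    omega

/-- The meaning of the derived items. -/
structure Good (g : ℕ) (π τ : List ℕ) (u : It) : Prop where
  same : ∀ i < π.length, inI u.2 (yv π i) = inI u.1 i
  built : PBl π g ((range π.length).filter (fun i => inI u.1 i = true))
  real : ∃ e : ℕ → ℕ, ∀ i < π.length, inI u.1 i = true → e i < τ.length ∧
    (∃ p ∈ u.1, (p.1 ≤ i ∧ i < p.2.1) ∧ p.2.2.1 ≤ e i ∧ e i < p.2.2.2) ∧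
    (∃ q ∈ u.2, (q.1 ≤ yv π i ∧ yv π i < q.2.1) ∧ q.2.2.1 ≤ yv τ (e i) ∧ yv τ (e i) < q.2.2.2) ∧
    ∀ j < π.length, inI u.1 j = true → (i < j → e i < e j) ∧
      (yv π i < yv π j → yv τ (e i) < yv τ (e j))

theorem good_lvs {g : ℕ} {π τ : List ℕ} (hπ : IsPerm π) {u : It} (hu : u ∈ lvs π τ) :
    Good g π τ u := by
  obtain ⟨i, hi, j, hj, rfl⟩ := mem_lvs.1 hu
  have h1 : ∀ i', inI [((i, i + 1, j, j + 1) : Fr)] i' = true ↔ i' = i := by
    intro i'
    rw [inI_iff]
    simp only [List.mem_singleton, exists_eq_left]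
    omega
  have h2 : ∀ v, inI [((yv π i, yv π i + 1, yv τ j, yv τ j + 1) : Fr)] v = true ↔ v = yv π i := by
    intro v
    rw [inI_iff]
    simp only [List.mem_singleton, exists_eq_left]
    omega
  refine ⟨?_, ?_, ?_⟩
  · intro i' hi'
    rw [Bool.eq_iff_iff, h1, h2]
    constructor
    · intro h
      exact hπ.injOn (by simpa using hi') (by simpa using hi) h
    · rintro rfl; rfl
  · refine Bl.small (filter_subset _ _) ?_
    rw [card_le_one]
    intro a ha b hb
    rw [mem_filter, h1] at ha hb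
    omega
  · refine ⟨fun _ => j, ?_⟩
    intro i' hi' hi2
    rw [h1] at hi2
    subst hi2
    refine ⟨hj, ⟨_, List.mem_singleton.2 rfl, ⟨le_rfl, by dsimp only; omega⟩, le_rfl, by dsimp only; omega⟩,
      ⟨_, List.mem_singleton.2 rfl, ⟨le_rfl, by dsimp only; omega⟩, le_rfl, by dsimp only; omega⟩, ?_⟩
    intro j' hj' hj2
    rw [h1] at hj2
    subst hj2
    exact ⟨fun h => absurd h (lt_irrefl _), fun h => absurd h (lt_irrefl _)⟩

theorem sep_lt {P Q : List Fr} (h : sep P Q = true) {p q : Fr} (hp : p ∈ P) (hq : q ∈ Q)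
    {i j x y : ℕ} (h1 : p.1 ≤ i ∧ i < p.2.1) (h2 : p.2.2.1 ≤ x ∧ x < p.2.2.2)
    (h3 : q.1 ≤ j ∧ j < q.2.1) (h4 : q.2.2.1 ≤ y ∧ y < q.2.2.2) :
    (i < j → x < y) ∧ (j < i → y < x) := by
  have := sep_iff.1 h p hp q hq
  omega

theorem good_rule {g : ℕ} {π τ : List ℕ} (hπ : IsPerm π) {a b u : It} (ha : Good g π τ a)
    (hb : Good g π τ b) (h : rule π a b u = true) (hu1 : u.1.length ≤ g) (hu2 : u.2.length ≤ g) :
    Good g π τ u := by
  rw [rule_iff] at h
  obtain ⟨hr, ⟨hs1, hs2⟩, ⟨ha1, hb1⟩, ⟨ha2, hb2⟩⟩ := h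
  have hor : ∀ i < π.length, (inI u.1 i = true ↔ inI a.1 i = true ∨ inI b.1 i = true) := by
    intro i hi
    rw [(hr i hi).1.1, Bool.or_eq_true]
  refine ⟨?_, ?_, ?_⟩
  · intro i hi
    rw [(hr i hi).2, (hr i hi).1.1, ha.same i hi, hb.same i hi]
  · have e : (range π.length).filter (fun i => inI u.1 i = true) =
        (range π.length).filter (fun i => inI a.1 i = true) ∪
        (range π.length).filter (fun i => inI b.1 i = true) := by
      ext i
      rw [mem_union, mem_filter, mem_filter, mem_filter, mem_range]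
      constructor
      · rintro ⟨h1, h2⟩
        rcases (hor i h1).1 h2 with h3 | h3
        · exact Or.inl ⟨h1, h3⟩
        · exact Or.inr ⟨h1, h3⟩
      · rintro (⟨h1, h2⟩ | ⟨h1, h2⟩)
        · exact ⟨h1, (hor i h1).2 (Or.inl h2)⟩
        · exact ⟨h1, (hor i h1).2 (Or.inr h2)⟩
    have hX : Cvx id (range π.length) ((range π.length).filter (fun i => inI u.1 i = true)) g :=
      cvx_of_list hπ (Set.injOn_id _) image_id hu1 (fun i => by
        rw [mem_filter, mem_range]; rfl)
    have hY : Cvx (yv π) (range π.length)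
        ((range π.length).filter (fun i => inI u.1 i = true)) g :=
      cvx_of_list hπ hπ.injOn hπ.image hu2 (fun i => by
        rw [mem_filter, mem_range]
        constructor
        · rintro ⟨h1, h2⟩
          refine ⟨h1, ?_⟩
          rw [(hr i h1).2, ha.same i h1, hb.same i h1, ← (hr i h1).1.1]
          exact h2
        · rintro ⟨h1, h2⟩
          refine ⟨h1, ?_⟩
          rw [(hr i h1).2, ha.same i h1, hb.same i h1, ← (hr i h1).1.1] at h2
          exact h2)
    rw [e] at hX hY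
    rw [e]
    refine Bl.join ha.built hb.built ?_ hX hY
    rw [disjoint_left]
    intro i h1 h2
    rw [mem_filter, mem_range] at h1 h2
    exact (hr i h1.1).1.2 ⟨h1.2, h2.2⟩
  · obtain ⟨ea, hea⟩ := ha.real
    obtain ⟨eb, heb⟩ := hb.real
    have hcross : ∀ i < π.length, ∀ j < π.length, inI a.1 i = true → inI b.1 j = true →
        ((i < j → ea i < eb j) ∧ (j < i → eb j < ea i)) ∧
        ((yv π i < yv π j → yv τ (ea i) < yv τ (eb j)) ∧
          (yv π j < yv π i → yv τ (eb j) < yv τ (ea i))) := by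
      intro i hi j hj hai hbj
      obtain ⟨-, ⟨p, hp, hp1, hp2⟩, ⟨q, hq, hq1, hq2⟩, -⟩ := hea i hi hai
      obtain ⟨-, ⟨p', hp', hp1', hp2'⟩, ⟨q', hq', hq1', hq2'⟩, -⟩ := heb j hj hbj
      exact ⟨sep_lt hs1 hp hp' hp1 hp2 hp1' hp2', sep_lt hs2 hq hq' hq1 hq2 hq1' hq2'⟩
    refine ⟨fun i => if inI a.1 i = true then ea i else eb i, ?_⟩
    intro i hi hui
    have lift : ∀ (x : It) (ex : ℕ → ℕ), sub x.1 u.1 = true → sub x.2 u.2 = true →
        (∃ p ∈ x.1, (p.1 ≤ i ∧ i < p.2.1) ∧ p.2.2.1 ≤ ex i ∧ ex i < p.2.2.2) →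
        (∃ q ∈ x.2, (q.1 ≤ yv π i ∧ yv π i < q.2.1) ∧ q.2.2.1 ≤ yv τ (ex i) ∧
          yv τ (ex i) < q.2.2.2) →
        (∃ p ∈ u.1, (p.1 ≤ i ∧ i < p.2.1) ∧ p.2.2.1 ≤ ex i ∧ ex i < p.2.2.2) ∧
        (∃ q ∈ u.2, (q.1 ≤ yv π i ∧ yv π i < q.2.1) ∧ q.2.2.1 ≤ yv τ (ex i) ∧
          yv τ (ex i) < q.2.2.2) := by
      rintro x ex hx1 hx2 ⟨p, hp, h1⟩ ⟨q, hq, h2⟩
      obtain ⟨p', hp', h3⟩ := sub_iff.1 hx1 p hp
      obtain ⟨q', hq', h4⟩ := sub_iff.1 hx2 q hq
      exact ⟨⟨p', hp', by omega⟩, ⟨q', hq', by omega⟩⟩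
    by_cases hai : inI a.1 i = true
    · obtain ⟨h1, h2, h3, h4⟩ := hea i hi hai
      obtain ⟨h5, h6⟩ := lift a ea ha1 ha2 h2 h3
      simp only [hai, if_true]
      refine ⟨h1, h5, h6, ?_⟩
      intro j hj huj
      by_cases haj : inI a.1 j = true
      · simp only [haj, if_true]
        exact h4 j hj haj
      · have hbj := ((hor j hj).1 huj).resolve_left haj
        simp only [haj, if_false, Bool.false_eq_true]
        have := hcross i hi j hj hai hbj
        exact ⟨this.1.1, this.2.1⟩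
    · have hbi := ((hor i hi).1 hui).resolve_left hai
      obtain ⟨h1, h2, h3, h4⟩ := heb i hi hbi
      obtain ⟨h5, h6⟩ := lift b eb hb1 hb2 h2 h3
      simp only [hai, if_false, Bool.false_eq_true]
      refine ⟨h1, h5, h6, ?_⟩
      intro j hj huj
      by_cases haj : inI a.1 j = true
      · simp only [haj, if_true]
        have := hcross j hj i hi haj hbi
        exact ⟨this.1.2, this.2.2⟩
      · have hbj := ((hor j hj).1 huj).resolve_left haj
        simp only [haj, if_false, Bool.false_eq_true]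
        exact h4 j hj hbj

theorem good_iter {g : ℕ} {π τ : List ℕ} (hπ : IsPerm π) (s : ℕ) :
    ∀ u ∈ (stp g π τ)^[s] (lvs π τ), Good g π τ u := by
  induction s with
  | zero => exact fun u hu => good_lvs hπ hu
  | succ s ih =>
    intro u hu
    rw [Function.iterate_succ_apply', stp, List.mem_append] at hu
    rcases hu with hu | hu
    · exact good_lvs hπ hu
    · rw [List.mem_filter, mem_itms, List.any_eq_true] at hu
      obtain ⟨⟨h1, h2⟩, a, ha, hu⟩ := hu
      rw [List.any_eq_true] at hu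
      obtain ⟨b, hb, hu⟩ := hu
      exact good_rule hπ (ih a ha) (ih b hb) hu (mem_lsts_length h1) (mem_lsts_length h2)

theorem alg_sound {g : ℕ} (hg : 1 ≤ g) {π τ : List ℕ} (hπ : IsPerm π) (h : alg g π τ = true) :
    gw π ≤ g ∧ Contains τ π := by
  rw [alg, Bool.or_eq_true, decide_eq_true_eq, List.any_eq_true] at h
  rcases h with h | ⟨u, hu, h⟩
  · constructor
    · rw [gw_le_iff hπ hg]
      left
      rw [h]; rfl
    · have : π = [] := List.length_eq_zero_iff.1 h
      subst this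
      exact ⟨fun i => i.elim0, fun i => i.elim0, fun i => i.elim0⟩
  · rw [List.all_eq_true] at h
    have hall : ∀ i < π.length, inI u.1 i = true := fun i hi => h i (List.mem_range.2 hi)
    have hgood := good_iter hπ _ u hu
    constructor
    · rw [gw_le_iff hπ hg]
      have e : (range π.length).filter (fun i => inI u.1 i = true) = range π.length := by
        rw [filter_eq_self]
        intro i hi
        exact hall i (mem_range.1 hi)
      have := hgood.built
      rwa [e] at this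
    · obtain ⟨e, he⟩ := hgood.real
      refine contains_of_emb hπ (f := e) ⟨?_, ?_, ?_⟩
      · intro i hi
        exact mem_range.2 (he i hi (hall i hi)).1
      · intro i hi j hj hij
        exact ((he i hi (hall i hi)).2.2.2 j hj (hall j hj)).1 hij
      · intro i hi j hj hij
        exact ((he i hi (hall i hi)).2.2.2 j hj (hall j hj)).2 hij

end Pool.Agent.H593R3.PPM
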