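import Pool.Agent.H593R3.PPM.Alg

/-!
# The algorithm for patterns of bounded grid-width: completeness
-/

namespace Pool.Agent.H593R3.PPM

open Finset

/-- the first element of the run of `B` ending at `a` -/
noncomputable def sta (B : Finset ℕ) (a : ℕ) : ℕ := sInf {x | ∀ y, x ≤ y → y ≤ a → y ∈ B}

theorem sta_spec {B : Finset ℕ} {a : ℕ} (ha : a ∈ B) : sta B a ≤ a ∧
    (∀ y, sta B a ≤ y → y ≤ a → y ∈ B) ∧ ∀ x, (∀ y, x ≤ y → y ≤ a → y ∈ B) → sta B a ≤ x := by
  have hmem : a ∈ {x | ∀ y, x ≤ y → y ≤ a → y ∈ B} := by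
    intro y h1 h2
    have : y = a := le_antisymm h2 h1
    rwa [this]
  exact ⟨Nat.sInf_le hmem, Nat.sInf_mem ⟨a, hmem⟩, fun x hx => Nat.sInf_le hx⟩

/-- the end of the run containing a given element -/
theorem exists_end {B : Finset ℕ} {i : ℕ} (hi : i ∈ B) : ∃ a ∈ B, a + 1 ∉ B ∧ i ≤ a ∧
    ∀ y, i ≤ y → y ≤ a → y ∈ B := by
  classical
  have hex : ∃ d, i + d + 1 ∉ B := by
    obtain ⟨N, hN⟩ := B.exists_nat_subset_range
    refine ⟨N, fun h => ?_⟩
    have := mem_range.1 (hN h)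
    omega
  obtain ⟨d, hd, hmin⟩ : ∃ d, i + d + 1 ∉ B ∧ ∀ d' < d, i + d' + 1 ∈ B := by
    refine ⟨Nat.find hex, Nat.find_spec hex, fun d' hd' => ?_⟩
    have := Nat.find_min hex hd'
    exact not_not.1 this
  have hall : ∀ y, i ≤ y → y ≤ i + d → y ∈ B := by
    intro y h1 h2
    rcases Nat.eq_or_lt_of_le h1 with rfl | h3
    · exact hi
    · have := hmin (y - i - 1) (by omega)
      have e : i + (y - i - 1) + 1 = y := by omega
      rwa [e] at this
  exact ⟨i + d, hall _ (by omega) le_rfl, hd, by omega, hall⟩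

/-- the frames of the runs of `B` -/
noncomputable def runs (k : ℕ) (B : Finset ℕ) (F : ℕ → ℕ) : List Fr :=
  ((List.range k).filter (fun a => decide (a ∈ B ∧ a + 1 ∉ B))).map
    (fun a => (sta B a, a + 1, F (sta B a), F a + 1))

theorem mem_runs {k : ℕ} {B : Finset ℕ} {F : ℕ → ℕ} {p : Fr} : p ∈ runs k B F ↔
    ∃ a < k, a ∈ B ∧ a + 1 ∉ B ∧ p = (sta B a, a + 1, F (sta B a), F a + 1) := by
  rw [runs, List.mem_map]
  constructor
  · rintro ⟨a, ha, rfl⟩
    rw [List.mem_filter, List.mem_range, decide_eq_true_eq] at ha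
    exact ⟨a, ha.1, ha.2.1, ha.2.2, rfl⟩
  · rintro ⟨a, h1, h2, h3, rfl⟩
    exact ⟨a, by rw [List.mem_filter, List.mem_range, decide_eq_true_eq]; exact ⟨h1, h2, h3⟩, rfl⟩

theorem runs_length {k g : ℕ} {B : Finset ℕ} {F : ℕ → ℕ} (h : intv B ≤ g) :
    (runs k B F).length ≤ g := by
  refine le_trans ?_ h
  rw [runs, List.length_map, intv, ← List.toFinset_card_of_nodup (List.nodup_range.filter _)]
  refine card_le_card fun a ha => ?_
  rw [List.mem_toFinset, List.mem_filter, decide_eq_true_eq] at ha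
  exact mem_filter.2 ha.2

/-- a tight list of frames for `B` -/
structure Tight (B : Finset ℕ) (F : ℕ → ℕ) (P : List Fr) : Prop where
  fr : ∀ p ∈ P, ∃ a, p.2.1 = a + 1 ∧ p.1 ≤ a ∧ (∀ y, p.1 ≤ y → y ≤ a → y ∈ B) ∧
    p.2.2.1 = F p.1 ∧ p.2.2.2 = F a + 1
  cov : ∀ i ∈ B, inI P i = true

theorem tight_runs {k : ℕ} {B : Finset ℕ} {F : ℕ → ℕ} (hB : B ⊆ range k) :
    Tight B F (runs k B F) := by
  refine ⟨?_, ?_⟩
  · intro p hp
    obtain ⟨a, h1, h2, h3, rfl⟩ := mem_runs.1 hp
    obtain ⟨h4, h5, h6⟩ := sta_spec h2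
    exact ⟨a, rfl, h4, h5, rfl, rfl⟩
  · intro i hi
    obtain ⟨a, h1, h2, h3, h4⟩ := exists_end hi
    obtain ⟨h5, h6, h7⟩ := sta_spec h1
    rw [inI_iff]
    exact ⟨_, mem_runs.2 ⟨a, mem_range.1 (hB h1), h1, h2, rfl⟩, h7 i h4,
      by dsimp only; omega⟩

theorem Tight.mem_iff {B : Finset ℕ} {F : ℕ → ℕ} {P : List Fr} (h : Tight B F P) (i : ℕ) :
    inI P i = true ↔ i ∈ B := by
  refine ⟨fun hi => ?_, h.cov i⟩
  obtain ⟨p, hp, h1, h2⟩ := inI_iff.1 hi
  obtain ⟨a, h3, h4, h5, -, -⟩ := h.fr p hp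
  exact h5 i h1 (by omega)

theorem tight_sep {k : ℕ} {B1 B2 : Finset ℕ} {F : ℕ → ℕ} {P1 P2 : List Fr} (h1 : Tight B1 F P1)
    (h2 : Tight B2 F P2) (hB1 : B1 ⊆ range k) (hB2 : B2 ⊆ range k) (hd : Disjoint B1 B2)
    (hF : ∀ i < k, ∀ j < k, i < j → F i < F j) : sep P1 P2 = true := by
  rw [sep_iff]
  intro p hp q hq
  obtain ⟨a, ha1, ha2, ha3, ha4, ha5⟩ := h1.fr p hp
  obtain ⟨b, hb1, hb2, hb3, hb4, hb5⟩ := h2.fr q hq
  have haB := ha3 a ha2 le_rfl
  have hbB := hb3 b hb2 le_rfl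
  have hpB := ha3 p.1 le_rfl ha2
  have hqB := hb3 q.1 le_rfl hb2
  have hak := mem_range.1 (hB1 haB)
  have hbk := mem_range.1 (hB2 hbB)
  rcases lt_trichotomy a b with h | h | h
  · left
    have h3 : a < q.1 := by
      by_contra h3
      exact disjoint_left.1 hd haB (hb3 a (by omega) (by omega))
    have := hF a hak q.1 (by omega) h3
    omega
  · exact absurd hbB (h ▸ disjoint_left.1 hd haB)
  · right
    have h3 : b < p.1 := by
      by_contra h3
      exact disjoint_left.1 hd (ha3 b (by omega) (by omega)) hbB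
    have := hF b hbk p.1 (by omega) h3
    omega

theorem tight_sub {k : ℕ} {B1 B : Finset ℕ} {F : ℕ → ℕ} {P1 : List Fr} (h1 : Tight B1 F P1)
    (hB : B ⊆ range k) (hsub : B1 ⊆ B) (hF : ∀ i < k, ∀ j < k, i < j → F i < F j) :
    sub P1 (runs k B F) = true := by
  rw [sub_iff]
  intro p hp
  obtain ⟨a, ha1, ha2, ha3, ha4, ha5⟩ := h1.fr p hp
  obtain ⟨b, hb1, hb2, hb3, hb4⟩ := exists_end (hsub (ha3 a ha2 le_rfl))
  obtain ⟨h5, h6, h7⟩ := sta_spec hb1
  have hbk := mem_range.1 (hB hb1)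
  have h8 : sta B b ≤ p.1 := by
    refine h7 p.1 fun y hy1 hy2 => ?_
    rcases le_total y a with h | h
    · exact hsub (ha3 y hy1 h)
    · exact hb4 y h hy2
  refine ⟨_, mem_runs.2 ⟨b, hbk, hb1, hb2, rfl⟩, ⟨h8, by dsimp only; omega⟩, ?_, ?_⟩
  · dsimp only
    rcases Nat.eq_or_lt_of_le h8 with h9 | h9
    · rw [ha4, h9]
    · have := hF _ (by omega) p.1 (by omega) h9
      omega
  · dsimp only
    rcases Nat.eq_or_lt_of_le hb3 with h9 | h9
    · rw [ha5, h9]
    · have := hF a (by omega) b hbk h9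
      omega

theorem runs_mem_lsts {k n g : ℕ} {B : Finset ℕ} {F : ℕ → ℕ} (hB : B ⊆ range k)
    (hF : ∀ i < k, F i < n) (h : intv B ≤ g) : runs k B F ∈ lsts g (k + n + 1) := by
  refine mem_lsts_of (runs_length h) fun p hp => ?_
  obtain ⟨a, h1, h2, h3, rfl⟩ := mem_runs.1 hp
  obtain ⟨h5, h6, h7⟩ := sta_spec h2
  rw [mem_frs]
  have h8 := hF _ (show sta B a < k by omega)
  have h9 := hF a h1
  dsimp only
  omega

theorem alg_complete {g : ℕ} (hg : 1 ≤ g) {π τ : List ℕ} (hπ : IsPerm π) (hτ : IsPerm τ)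
    (h1 : gw π ≤ g) (h2 : Contains τ π) : alg g π τ = true := by
  classical
  rw [alg, Bool.or_eq_true, decide_eq_true_eq]
  rcases Nat.eq_zero_or_pos π.length with h0 | h0
  · exact Or.inl h0
  right
  obtain ⟨e, he⟩ := h2.emb
  rw [gw_le_iff hπ hg] at h1
  rcases h1 with h1 | h1
  · exfalso
    rw [range_eq_empty_iff] at h1
    omega
  -- the inverse of the pattern
  have hinv : ∀ v ∈ range π.length, ∃ i, i < π.length ∧ yv π i = v := by
    intro v hv
    rw [← hπ.image] at hv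
    obtain ⟨i, hi, rfl⟩ := mem_image.1 hv
    exact ⟨i, mem_range.1 hi, rfl⟩
  choose! inv hinv1 hinv2 using hinv
  obtain ⟨G, hG⟩ : ∃ G : ℕ → ℕ, ∀ v, G v = yv τ (e (inv v)) := ⟨_, fun _ => rfl⟩
  have heF : ∀ i < π.length, ∀ j < π.length, i < j → e i < e j := he.x
  have hGF : ∀ i < π.length, ∀ j < π.length, i < j → G i < G j := by
    intro i hi j hj hij
    rw [hG, hG]
    refine he.y _ (hinv1 i (mem_range.2 hi)) _ (hinv1 j (mem_range.2 hj)) ?_
    rw [hinv2 i (mem_range.2 hi), hinv2 j (mem_range.2 hj)]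
    exact hij
  have hen : ∀ i < π.length, e i < τ.length := fun i hi => mem_range.1 (he.mem i hi)
  have hGn : ∀ i < π.length, G i < τ.length := by
    intro i hi
    rw [hG]
    exact hτ.yv_lt (hen _ (hinv1 i (mem_range.2 hi)))
  have hGyv : ∀ i < π.length, G (yv π i) = yv τ (e i) := by
    intro i hi
    have h3 := mem_range.2 (hπ.yv_lt hi)
    rw [hG]
    have : inv (yv π i) = i := hπ.injOn (by simpa using hinv1 _ h3) (by simpa using hi) (hinv2 _ h3)
    rw [this]
  have hcomp : ∀ A, PBld π g A → ∀ s, A.card ≤ s + 1 → ∃ u ∈ (stp g π τ)^[s] (lvs π τ),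
      Tight A e u.1 ∧ Tight (A.image (yv π)) G u.2 := by
    intro A hA
    induction hA with
    | leaf i hi =>
      intro s _
      rw [mem_range] at hi
      refine ⟨([(i, i + 1, e i, e i + 1)], [(yv π i, yv π i + 1, yv τ (e i), yv τ (e i) + 1)]),
        ?_, ⟨?_, ?_⟩, ⟨?_, ?_⟩⟩
      · have hl : ([(i, i + 1, e i, e i + 1)], [(yv π i, yv π i + 1, yv τ (e i), yv τ (e i) + 1)]) ∈
            lvs π τ := mem_lvs.2 ⟨i, hi, e i, hen i hi, rfl⟩
        cases s with
        | zero => exact hl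
        | succ s =>
          rw [Function.iterate_succ_apply', stp, List.mem_append]
          exact Or.inl hl
      · intro p hp
        rw [List.mem_singleton] at hp
        subst hp
        refine ⟨i, rfl, le_rfl, ?_, rfl, rfl⟩
        intro y h3 h4
        dsimp only at h3
        rw [mem_singleton]; omega
      · intro j hj
        rw [mem_singleton] at hj
        subst hj
        rw [inI_iff]
        exact ⟨_, List.mem_singleton.2 rfl, le_rfl, Nat.lt_succ_self _⟩
      · intro p hp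
        rw [List.mem_singleton] at hp
        subst hp
        refine ⟨yv π i, rfl, le_rfl, ?_, ?_, ?_⟩
        · intro y h3 h4
          dsimp only at h3
          rw [image_singleton, mem_singleton]; omega
        · dsimp only; rw [hGyv i hi]
        · dsimp only; rw [hGyv i hi]
      · intro j hj
        rw [image_singleton, mem_singleton] at hj
        subst hj
        rw [inI_iff]
        exact ⟨_, List.mem_singleton.2 rfl, le_rfl, Nat.lt_succ_self _⟩
    | node A B hA hB hd hX hY ihA ihB =>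
      intro s hs
      rw [card_union_of_disjoint hd] at hs
      have hAc := hA.nonempty.card_pos
      have hBc := hB.nonempty.card_pos
      obtain ⟨s', rfl⟩ : ∃ s', s = s' + 1 := ⟨s - 1, by omega⟩
      obtain ⟨a, ha, ha1, ha2⟩ := ihA s' (by omega)
      obtain ⟨b, hb, hb1, hb2⟩ := ihB s' (by omega)
      have hAB : A ∪ B ⊆ range π.length := union_subset hA.subset hB.subset
      have hABi : (A ∪ B).image (yv π) ⊆ range π.length := by
        rw [← hπ.image]
        exact image_subset_image hAB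
      have hAi : A.image (yv π) ⊆ range π.length := by
        rw [← hπ.image]
        exact image_subset_image hA.subset
      have hBi : B.image (yv π) ⊆ range π.length := by
        rw [← hπ.image]
        exact image_subset_image hB.subset
      have hdi : Disjoint (A.image (yv π)) (B.image (yv π)) := by
        rw [disjoint_left]
        intro v h3 h4
        obtain ⟨i, hi, rfl⟩ := mem_image.1 h3
        obtain ⟨j, hj, hij⟩ := mem_image.1 h4
        have : j = i := hπ.injOn (hB.subset hj) (hA.subset hi) hij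
        subst this
        exact disjoint_left.1 hd hi hj
      have hcx := (cx_le_iff hπ hAB).2 ⟨hX, hY⟩
      rw [cx, max_le_iff] at hcx
      have ht1 : Tight (A ∪ B) e (runs π.length (A ∪ B) e) := tight_runs hAB
      have ht2 : Tight ((A ∪ B).image (yv π)) G (runs π.length ((A ∪ B).image (yv π)) G) :=
        tight_runs hABi
      refine ⟨(runs π.length (A ∪ B) e, runs π.length ((A ∪ B).image (yv π)) G), ?_, ht1, ht2⟩
      rw [Function.iterate_succ_apply', stp, List.mem_append]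
      right
      rw [List.mem_filter, mem_itms]
      refine ⟨⟨runs_mem_lsts hAB hen hcx.1, runs_mem_lsts hABi hGn hcx.2⟩, ?_⟩
      rw [List.any_eq_true]
      refine ⟨a, ha, ?_⟩
      rw [List.any_eq_true]
      refine ⟨b, hb, ?_⟩
      rw [rule_iff]
      refine ⟨?_, ⟨tight_sep ha1 hb1 hA.subset hB.subset hd heF,
        tight_sep ha2 hb2 hAi hBi hdi hGF⟩, ⟨tight_sub ha1 hAB subset_union_left heF,
        tight_sub hb1 hAB subset_union_right heF⟩, ⟨?_, ?_⟩⟩
      · intro i hi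
        refine ⟨⟨?_, ?_⟩, ?_⟩
        · rw [Bool.eq_iff_iff, Bool.or_eq_true, ht1.mem_iff, ha1.mem_iff, hb1.mem_iff, mem_union]
        · rw [ha1.mem_iff, hb1.mem_iff]
          exact fun h => disjoint_left.1 hd h.1 h.2
        · rw [Bool.eq_iff_iff, Bool.or_eq_true, ht2.mem_iff, ha2.mem_iff, hb2.mem_iff, image_union,
            mem_union]
      · exact tight_sub ha2 hABi (image_subset_image subset_union_left) hGF
      · exact tight_sub hb2 hABi (image_subset_image subset_union_right) hGF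
  obtain ⟨u, hu, hu1, -⟩ := hcomp _ h1 π.length (by rw [card_range]; omega)
  rw [List.any_eq_true]
  refine ⟨u, hu, ?_⟩
  rw [List.all_eq_true]
  intro i hi
  exact hu1.cov i (mem_range.2 (List.mem_range.1 hi))

theorem alg_iff {g : ℕ} (hg : 1 ≤ g) {π τ : List ℕ} (hπ : IsPerm π) (hτ : IsPerm τ) :
    alg g π τ = true ↔ gw π ≤ g ∧ Contains τ π :=
  ⟨alg_sound hg hπ, fun h => alg_complete hg hπ hτ h.1 h.2⟩

end Pool.Agent.H593R3.PPM
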