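import Pool.Agent.H593R3.PPM.AlgC
import Pool.Agent.H671R2.PolyAuto

/-!
# The algorithm runs in polynomial time
-/

namespace Pool.Agent.H593R3.PPM

open Pool.Agent.NPC

theorem poly_inI : Poly (fun p : List Fr × ℕ => inI p.1 p.2) := by
  unfold inI
  fun_prop

theorem poly_sep : Poly (fun p : List Fr × List Fr => sep p.1 p.2) := by
  unfold sep
  fun_prop

theorem poly_sub : Poly (fun p : List Fr × List Fr => sub p.1 p.2) := by
  unfold sub
  fun_prop

theorem poly_inI' {α : Type} [TEnc α] {P : α → List Fr} {i : α → ℕ} (hP : Poly P) (hi : Poly i) :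
    Poly (fun a => inI (P a) (i a)) := poly_inI.comp (hP.pair hi)

theorem poly_sep' {α : Type} [TEnc α] {P Q : α → List Fr} (hP : Poly P) (hQ : Poly Q) :
    Poly (fun a => sep (P a) (Q a)) := poly_sep.comp (hP.pair hQ)

theorem poly_sub' {α : Type} [TEnc α] {P Q : α → List Fr} (hP : Poly P) (hQ : Poly Q) :
    Poly (fun a => sub (P a) (Q a)) := poly_sub.comp (hP.pair hQ)

theorem poly_rangeL {α β : Type} [TEnc α] [TEnc β] {l : α → List β} (hl : Poly l) :
    Poly (fun a => List.range (l a).length) := Poly.range_length hl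

theorem poly_rule : Poly (fun p : (List ℕ × It) × It × It => rule p.1.1 p.1.2 p.2.1 p.2.2) := by
  unfold rule
  refine Poly.and (Poly.all (poly_rangeL (by fun_prop)) (Poly.and (Poly.and (Poly.decide_eq
    (poly_inI' (by fun_prop) (by fun_prop)) (Poly.or (poly_inI' (by fun_prop) (by fun_prop))
      (poly_inI' (by fun_prop) (by fun_prop)))) (Poly.not (Poly.and
        (poly_inI' (by fun_prop) (by fun_prop)) (poly_inI' (by fun_prop) (by fun_prop)))))
    (Poly.decide_eq (poly_inI' (by fun_prop) (by fun_prop))
      (Poly.or (poly_inI' (by fun_prop) (by fun_prop)) (poly_inI' (by fun_prop) (by fun_prop))))))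
    (Poly.and (Poly.and (poly_sep' (by fun_prop) (by fun_prop)) (poly_sep' (by fun_prop)
      (by fun_prop))) (Poly.and (Poly.and (poly_sub' (by fun_prop) (by fun_prop))
        (poly_sub' (by fun_prop) (by fun_prop))) (Poly.and (poly_sub' (by fun_prop) (by fun_prop))
        (poly_sub' (by fun_prop) (by fun_prop)))))

theorem poly_lvs : Poly (fun p : List ℕ × List ℕ => lvs p.1 p.2) := by
  unfold lvs
  refine Poly.flatMap (poly_rangeL (by fun_prop)) (NPC.Poly.map (poly_rangeL (by fun_prop)) ?_)
  fun_prop

/-- the bound on the entries -/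
def bd (p : List ℕ × List ℕ) : ℕ := p.1.length + p.2.length + 1

theorem uPoly_bd : UPoly bd := by
  unfold bd
  exact ((UPoly.length (Poly.fst Poly.id)).add (UPoly.length (Poly.snd Poly.id))).add
    (UPoly.const 1)

theorem poly_frs : Poly (fun p : List ℕ × List ℕ => frs (bd p)) := by
  unfold frs
  refine Poly.flatMap uPoly_bd.range (Poly.flatMap (uPoly_bd.comp (by fun_prop)).range
    (Poly.flatMap (uPoly_bd.comp (by fun_prop)).range (NPC.Poly.map (uPoly_bd.comp (by fun_prop)).range
      ?_)))
  fun_prop

theorem poly_lsts (g : ℕ) : Poly (fun p : List ℕ × List ℕ => lsts g (bd p)) := by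
  induction g with
  | zero => exact NPC.Poly.const _
  | succ g ih =>
    unfold lsts
    refine Poly.append ih (Poly.flatMap ih (NPC.Poly.map (poly_frs.comp (Poly.fst Poly.id)) ?_))
    fun_prop

theorem poly_itms (g : ℕ) : Poly (fun p : List ℕ × List ℕ => itms g (bd p)) := by
  unfold itms
  refine Poly.flatMap (poly_lsts g) (NPC.Poly.map ((poly_lsts g).comp (Poly.fst Poly.id)) ?_)
  fun_prop

theorem poly_stp (g : ℕ) :
    Poly (fun p : (List ℕ × List ℕ) × List It => stp g p.1.1 p.1.2 p.2) := by
  unfold stp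
  refine Poly.append (poly_lvs.comp (Poly.fst Poly.id)) (Poly.filter
    ((poly_itms g).comp (Poly.fst Poly.id)) (Poly.any (Poly.snd (Poly.fst Poly.id)) (Poly.any
      (Poly.snd (Poly.fst (Poly.fst Poly.id))) ?_)))
  exact poly_rule.comp (f := fun p : (((((List ℕ × List ℕ) × List It) × It) × It) × It) =>
    ((p.1.1.1.1.1, p.1.2), p.2, p.1.1.2)) (by fun_prop)

theorem sz_filter_le {β : Type} [TEnc β] (l : List β) (q : β → Bool) : sz (l.filter q) ≤ sz l := by
  induction l with
  | nil => simp
  | cons b l ih =>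
    rw [List.filter_cons]
    split_ifs
    · simp only [sz_list_cons]; omega
    · simp only [sz_list_cons]; omega

theorem poly_alg (g : ℕ) : Poly (fun p : List ℕ × List ℕ => alg g p.1 p.2) := by
  unfold alg
  have hb : Poly (fun p : List ℕ × List ℕ => lvs p.1 p.2 ++ itms g (bd p)) :=
    poly_lvs.append (poly_itms g)
  obtain ⟨q, hq⟩ := hb.sz_le
  have hit : Poly (fun p : List ℕ × List ℕ => (stp g p.1 p.2)^[p.1.length] (lvs p.1 p.2)) := by
    refine Poly.iterLen (l := fun p : List ℕ × List ℕ => p.1)
      (s := fun p : List ℕ × List ℕ => lvs p.1 p.2)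
      (F := fun p : List ℕ × List ℕ => stp g p.1 p.2) (Poly.fst Poly.id) poly_lvs (poly_stp g) q ?_
    intro p k _
    refine le_trans ?_ (hq p)
    have e := sz_append (lvs p.1 p.2) (itms g (bd p))
    cases k with
    | zero =>
      have := sz_pos (itms g (bd p))
      simp only [Function.iterate_zero, id]
      omega
    | succ k =>
      rw [Function.iterate_succ_apply', stp]
      have e2 := sz_append (lvs p.1 p.2) ((itms g (p.1.length + p.2.length + 1)).filter
        (fun u => ((stp g p.1 p.2)^[k] (lvs p.1 p.2)).any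
          (fun a => ((stp g p.1 p.2)^[k] (lvs p.1 p.2)).any (fun b => rule p.1 a b u))))
      have e3 := sz_filter_le (itms g (p.1.length + p.2.length + 1))
        (fun u => ((stp g p.1 p.2)^[k] (lvs p.1 p.2)).any
          (fun a => ((stp g p.1 p.2)^[k] (lvs p.1 p.2)).any (fun b => rule p.1 a b u)))
      have e4 : itms g (bd p) = itms g (p.1.length + p.2.length + 1) := rfl
      rw [e4] at e ⊢
      omega
  refine Poly.or (by fun_prop) (Poly.any hit (Poly.all (poly_rangeL (by fun_prop))
    (poly_inI' (by fun_prop) (by fun_prop))))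

end Pool.Agent.H593R3.PPM
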