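import Pool.Agent.H593R3.PPM.Abs

/-!
# Grid-width through built sets, and permutations from point sets
-/

namespace Pool.Agent.H593R3.PPM

open Finset

/-- the value at a position -/
def yv (π : List ℕ) (i : ℕ) : ℕ := π.getD i 0

theorem yv_eq {π : List ℕ} {i : ℕ} (hi : i < π.length) : yv π i = π[i] := by
  simp [yv, List.getD_eq_getElem?_getD, hi]

theorem IsPerm.nodup {π : List ℕ} (h : IsPerm π) : π.Nodup :=
  (List.Perm.nodup_iff h).2 List.nodup_range

theorem IsPerm.injOn {π : List ℕ} (h : IsPerm π) :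
    Set.InjOn (yv π) ((range π.length : Finset ℕ) : Set ℕ) := by
  intro i hi j hj hij
  have hi' : i < π.length := by simpa using hi
  have hj' : j < π.length := by simpa using hj
  rw [yv_eq hi', yv_eq hj'] at hij
  exact (List.Nodup.getElem_inj_iff h.nodup).1 hij

theorem IsPerm.image {π : List ℕ} (h : IsPerm π) :
    (range π.length).image (yv π) = range π.length := by
  ext b
  rw [mem_image, mem_range]
  have h1 : b ∈ π ↔ b < π.length := by rw [h.mem_iff, List.mem_range]
  rw [← h1]
  constructor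
  · rintro ⟨i, hi, rfl⟩
    rw [mem_range] at hi
    rw [yv_eq hi]
    exact List.getElem_mem hi
  · intro hb
    obtain ⟨i, hi, rfl⟩ := List.getElem_of_mem hb
    exact ⟨i, mem_range.2 hi, yv_eq hi⟩

theorem IsPerm.yv_lt {π : List ℕ} (h : IsPerm π) {i : ℕ} (hi : i < π.length) :
    yv π i < π.length := by
  have : yv π i ∈ (range π.length).image (yv π) := mem_image_of_mem _ (mem_range.2 hi)
  rw [h.image] at this
  exact mem_range.1 this

theorem image_id_range (n : ℕ) : (range n).image (id : ℕ → ℕ) = range n := image_id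

/-- The points of a permutation, as an abstract set with two orders. -/
abbrev PBld (π : List ℕ) (g : ℕ) (A : Finset ℕ) : Prop := Bld id (yv π) (range π.length) g A

/-- The points of a permutation, as an abstract set with two orders. -/
abbrev PBl (π : List ℕ) (g : ℕ) (A : Finset ℕ) : Prop := Bl id (yv π) (range π.length) g A

theorem cx_le_iff {π : List ℕ} (h : IsPerm π) {g : ℕ} {A : Finset ℕ} (hA : A ⊆ range π.length) :
    cx π A ≤ g ↔ Cvx id (range π.length) A g ∧ Cvx (yv π) (range π.length) A g := by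
  rw [cx, max_le_iff]
  have h1 := intv_le_iff (V := ℕ) (Y := id) (g := g) (n := π.length) (S := range π.length)
    (Set.injOn_id _) image_id hA
  have h2 := intv_le_iff (V := ℕ) (Y := yv π) (g := g) (n := π.length) (S := range π.length)
    h.injOn h.image hA
  rw [image_id] at h1
  exact and_congr h1 h2

theorem leaves_ne_nil : ∀ t : GTree, t.leaves ≠ []
  | GTree.leaf i => by simp [GTree.leaves]
  | GTree.node l r => by simp [GTree.leaves, leaves_ne_nil l]

theorem width_bld {π : List ℕ} (h : IsPerm π) {g : ℕ} : ∀ t : GTree, t.leaves.Nodup →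
    (∀ i ∈ t.leaves, i < π.length) → t.width π ≤ g → PBld π g t.leaves.toFinset
  | GTree.leaf i, _, hi, _ => by
    have : (GTree.leaf i).leaves.toFinset = {i} := rfl
    rw [this]
    exact Bld.leaf i (by simpa [GTree.leaves] using hi i)
  | GTree.node l r, hn, hi, hw => by
    rw [GTree.leaves, List.nodup_append] at hn
    simp only [GTree.leaves, List.mem_append] at hi
    rw [GTree.width, max_le_iff, max_le_iff] at hw
    have hl := width_bld h l hn.1 (fun i hi' => hi i (Or.inl hi')) hw.2.1
    have hr := width_bld h r hn.2.1 (fun i hi' => hi i (Or.inr hi')) hw.2.2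
    rw [List.toFinset_append] at hw
    have hc := (cx_le_iff h (union_subset hl.subset hr.subset)).1 hw.1
    have : (GTree.node l r).leaves.toFinset = l.leaves.toFinset ∪ r.leaves.toFinset := by
      rw [GTree.leaves, List.toFinset_append]
    rw [this]
    refine Bld.node _ _ hl hr ?_ hc.1 hc.2
    rw [disjoint_left]
    intro a ha hb
    rw [List.mem_toFinset] at ha hb
    exact hn.2.2 a ha a hb rfl

theorem bld_tree {π : List ℕ} (h : IsPerm π) {g : ℕ} (hg : 1 ≤ g) {A : Finset ℕ}
    (hA : PBld π g A) : ∃ t : GTree, t.leaves.Nodup ∧ t.leaves.toFinset = A ∧ t.width π ≤ g := by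
  induction hA with
  | leaf v hv =>
    refine ⟨GTree.leaf v, by simp [GTree.leaves], rfl, ?_⟩
    rw [GTree.width, cx_le_iff h (by simpa using hv)]
    exact ⟨cvx_single _ _ _ hg, cvx_single _ _ _ hg⟩
  | node A B hA hB hd hX hY ihA ihB =>
    obtain ⟨t, ht1, ht2, ht3⟩ := ihA
    obtain ⟨u, hu1, hu2, hu3⟩ := ihB
    have e : (t.leaves ++ u.leaves).toFinset = A ∪ B := by rw [List.toFinset_append, ht2, hu2]
    refine ⟨GTree.node t u, ?_, e, ?_⟩
    · rw [GTree.leaves, List.nodup_append]
      refine ⟨ht1, hu1, ?_⟩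
      rintro a ha b hb rfl
      rw [← List.mem_toFinset, ht2] at ha
      rw [← List.mem_toFinset, hu2] at hb
      exact disjoint_left.1 hd ha hb
    · rw [GTree.width, max_le_iff, max_le_iff, e]
      exact ⟨(cx_le_iff h (union_subset hA.subset hB.subset)).2 ⟨hX, hY⟩, ht3, hu3⟩

/-- a grid tree -/
def comb : ℕ → GTree
  | 0 => GTree.leaf 0
  | n + 1 => GTree.node (comb n) (GTree.leaf (n + 1))

theorem comb_leaves : ∀ n, (comb n).leaves = List.range (n + 1)
  | 0 => rfl
  | n + 1 => by
    rw [comb, GTree.leaves, comb_leaves n, List.range_succ (n := n + 1)]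
    rfl

theorem gw_le_iff {π : List ℕ} (h : IsPerm π) {g : ℕ} (hg : 1 ≤ g) :
    gw π ≤ g ↔ PBl π g (range π.length) := by
  constructor
  · intro hgw
    rcases Nat.eq_zero_or_pos π.length with h0 | h0
    · left; rw [h0]; rfl
    right
    have hne : {w | ∃ t : GTree, t.leaves.Perm (List.range π.length) ∧
        t.width π = w}.Nonempty := by
      refine ⟨_, comb (π.length - 1), ?_, rfl⟩
      rw [comb_leaves, Nat.sub_add_cancel h0]
    obtain ⟨t, ht1, ht2⟩ := Nat.sInf_mem hne
    have hnd : t.leaves.Nodup := (List.Perm.nodup_iff ht1).2 List.nodup_range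
    have := width_bld (g := g) h t hnd (fun i hi => by
      rw [ht1.mem_iff, List.mem_range] at hi; exact hi) (le_of_eq_of_le ht2 hgw)
    have e : t.leaves.toFinset = range π.length := by
      ext i
      rw [List.mem_toFinset, ht1.mem_iff, List.mem_range, mem_range]
    rwa [e] at this
  · rintro (h0 | hb)
    · have h1 : π.length = 0 := by simpa using h0
      have : {w | ∃ t : GTree, t.leaves.Perm (List.range π.length) ∧ t.width π = w} = ∅ := by
        ext w
        simp only [Set.mem_ofPred_eq, Set.mem_empty_iff_false, iff_false]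
        rintro ⟨t, ht, -⟩
        rw [h1, List.range_zero] at ht
        exact leaves_ne_nil t ht.eq_nil
      rw [gw, this]
      simp
    · obtain ⟨t, ht1, ht2, ht3⟩ := bld_tree h hg hb
      refine le_trans (Nat.sInf_le ⟨t, ?_, rfl⟩) ht3
      refine List.perm_of_nodup_nodup_toFinset_eq ht1 List.nodup_range ?_
      rw [ht2]
      ext i; simp

section emb

variable {V : Type} [DecidableEq V] {X Y : V → ℕ} {S : Finset V} {g : ℕ}

/-- `h` embeds the points of the permutation `σ` into the set `S` with two orders. -/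
structure EmbIn (X Y : V → ℕ) (S : Finset V) (σ : List ℕ) (h : ℕ → V) : Prop where
  mem : ∀ i < σ.length, h i ∈ S
  x : ∀ i < σ.length, ∀ j < σ.length, i < j → X (h i) < X (h j)
  y : ∀ i < σ.length, ∀ j < σ.length, yv σ i < yv σ j → Y (h i) < Y (h j)

theorem EmbIn.injOn {σ : List ℕ} {h : ℕ → V} (he : EmbIn X Y S σ h) :
    Set.InjOn h ((range σ.length : Finset ℕ) : Set ℕ) := by
  intro i hi j hj hij
  have hi' : i < σ.length := by simpa using hi
  have hj' : j < σ.length := by simpa using hj
  rcases lt_trichotomy i j with h1 | h1 | h1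
  · have := he.x i hi' j hj' h1
    rw [hij] at this
    omega
  · exact h1
  · have := he.x j hj' i hi' h1
    rw [hij] at this
    omega

theorem gw_le_of_emb {σ : List ℕ} (hσ : IsPerm σ) {h : ℕ → V} (he : EmbIn X Y S σ h) (hg : 1 ≤ g)
    {A : Finset V} (hA : ∀ i < σ.length, h i ∈ A) (hb : Bl X Y S g A) : gw σ ≤ g := by
  rw [gw_le_iff hσ hg]
  have := Bl.pull (X' := id) (Y' := yv σ) (S' := range σ.length) (h := h)
    (fun w hw => he.mem w (mem_range.1 hw)) he.injOn
    (fun a ha b hb hab => he.x a (mem_range.1 ha) b (mem_range.1 hb) hab)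
    (fun a ha b hb hab => he.y a (mem_range.1 ha) b (mem_range.1 hb) hab) hb
  have e : (range σ.length).filter (fun w => h w ∈ A) = range σ.length := by
    rw [filter_eq_self]
    intro i hi
    exact hA i (mem_range.1 hi)
  rwa [e] at this

/-- Containment in terms of embeddings. -/
theorem Contains.emb {τ σ : List ℕ} (h : Contains τ σ) :
    ∃ f : ℕ → ℕ, EmbIn id (yv τ) (range τ.length) σ f := by
  obtain ⟨f, hf, hf'⟩ := h
  refine ⟨fun i => if h : i < σ.length then (f ⟨i, h⟩ : ℕ) else 0, ⟨?_, ?_, ?_⟩⟩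
  · intro i hi
    simp only [hi, dif_pos]
    exact mem_range.2 (f ⟨i, hi⟩).2
  · intro i hi j hj hij
    simp only [hi, hj, dif_pos, id]
    exact hf (show (⟨i, hi⟩ : Fin σ.length) < ⟨j, hj⟩ from hij)
  · intro i hi j hj hij
    simp only [hi, hj, dif_pos]
    rw [yv_eq hi, yv_eq hj] at hij
    rw [yv_eq (f ⟨i, hi⟩).2, yv_eq (f ⟨j, hj⟩).2]
    exact (hf' ⟨i, hi⟩ ⟨j, hj⟩).1 hij

theorem contains_of_emb {τ σ : List ℕ} (hσ : IsPerm σ) {f : ℕ → ℕ}
    (he : EmbIn id (yv τ) (range τ.length) σ f) : Contains τ σ := by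
  refine ⟨fun i => ⟨f i, mem_range.1 (he.mem i i.2)⟩, ?_, ?_⟩
  · intro i j hij
    exact he.x i i.2 j j.2 hij
  · intro i j
    have key : ∀ i j : Fin σ.length, σ[i] < σ[j] → yv τ (f i) < yv τ (f j) := by
      intro i j hij
      refine he.y i i.2 j j.2 ?_
      rw [yv_eq i.2, yv_eq j.2]
      exact hij
    have e : ∀ i : Fin σ.length, τ[f i]'(mem_range.1 (he.mem i i.2)) = yv τ (f i) := fun i =>
      (yv_eq _).symm
    change σ[i] < σ[j] ↔ τ[f i]'_ < τ[f j]'_
    rw [e, e]
    constructor
    · exact key i j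
    · intro h
      rcases lt_trichotomy σ[i] σ[j] with h1 | h1 | h1
      · exact h1
      · have : i = j := by
          have := (List.Nodup.getElem_inj_iff hσ.nodup).1 h1
          exact Fin.ext this
        rw [this] at h
        omega
      · have := key j i h1
        omega

/-- Grid-width is monotone under containment. -/
theorem gw_mono {τ σ : List ℕ} (hτ : IsPerm τ) (hσ : IsPerm σ) (h : Contains τ σ) (hg : 1 ≤ g)
    (hgw : gw τ ≤ g) : gw σ ≤ g := by
  obtain ⟨f, hf⟩ := h.emb
  exact gw_le_of_emb hσ hf hg hf.mem ((gw_le_iff hτ hg).1 hgw)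

theorem EmbIn.comp {τ σ : List ℕ} {h : ℕ → V} (he : EmbIn X Y S τ h) {f : ℕ → ℕ}
    (hf : EmbIn id (yv τ) (range τ.length) σ f) : EmbIn X Y S σ (fun i => h (f i)) := by
  refine ⟨fun i hi => he.mem _ (mem_range.1 (hf.mem i hi)), ?_, ?_⟩
  · intro i hi j hj hij
    exact he.x _ (mem_range.1 (hf.mem i hi)) _ (mem_range.1 (hf.mem j hj)) (hf.x i hi j hj hij)
  · intro i hi j hj hij
    exact he.y _ (mem_range.1 (hf.mem i hi)) _ (mem_range.1 (hf.mem j hj)) (hf.y i hi j hj hij)

theorem Contains.trans {ρ τ σ : List ℕ} (hσ : IsPerm σ) (h1 : Contains ρ τ) (h2 : Contains τ σ) :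
    Contains ρ σ := by
  obtain ⟨f, hf⟩ := h1.emb
  obtain ⟨g, hg⟩ := h2.emb
  exact contains_of_emb hσ (hf.comp hg)

theorem Contains.length_le {τ σ : List ℕ} (h : Contains τ σ) : σ.length ≤ τ.length := by
  obtain ⟨f, hf, -⟩ := h
  simpa using Fintype.card_le_of_injective f hf.injective

theorem Contains.refl (σ : List ℕ) : Contains σ σ := ⟨id, strictMono_id, fun _ _ => Iff.rfl⟩

/-- rank -/
def rk (Z : V → ℕ) (S : Finset V) (v : V) : ℕ := (S.filter (fun u => Z u < Z v)).card

omit [DecidableEq V] in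
theorem rk_lt {Z : V → ℕ} {u v : V} (hu : u ∈ S) (h : Z u < Z v) : rk Z S u < rk Z S v := by
  refine card_lt_card ((Finset.ssubset_iff_of_subset ?_).2 ⟨u, ?_, ?_⟩)
  · intro x hx
    rw [mem_filter] at hx ⊢
    exact ⟨hx.1, by omega⟩
  · rw [mem_filter]; exact ⟨hu, h⟩
  · rw [mem_filter]; omega

omit [DecidableEq V] in
theorem rk_lt_card {Z : V → ℕ} {v : V} (hv : v ∈ S) : rk Z S v < S.card := by
  refine card_lt_card ((Finset.ssubset_iff_of_subset (filter_subset _ _)).2 ⟨v, hv, ?_⟩)
  rw [mem_filter]; omega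

omit [DecidableEq V] in
theorem rk_inj {Z : V → ℕ} (hZ : Set.InjOn Z (S : Set V)) {u v : V} (hu : u ∈ S) (hv : v ∈ S)
    (h : rk Z S u = rk Z S v) : u = v := by
  rcases lt_trichotomy (Z u) (Z v) with h1 | h1 | h1
  · have := rk_lt hu h1; omega
  · exact hZ hu hv h1
  · have := rk_lt hv h1; omega

omit [DecidableEq V] in
theorem lt_of_rk_lt {Z : V → ℕ} {u v : V} (h : rk Z S u < rk Z S v) : Z u < Z v := by
  by_contra hc
  have : rk Z S v ≤ rk Z S u := card_le_card fun x hx => by
    rw [mem_filter] at hx ⊢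
    exact ⟨hx.1, by omega⟩
  omega

/-- The permutation of a finite set with two orders. -/
theorem exists_perm (hne : S.Nonempty) (hX : Set.InjOn X (S : Set V))
    (hY : Set.InjOn Y (S : Set V)) :
    ∃ π : List ℕ, IsPerm π ∧ π.length = S.card ∧ (∃ h : ℕ → V, EmbIn X Y S π h) ∧
      ∃ φ : V → ℕ, (∀ v ∈ S, φ v < π.length) ∧ Set.InjOn φ (S : Set V) ∧
        (∀ u ∈ S, ∀ v ∈ S, X u < X v → φ u < φ v) ∧
        (∀ u ∈ S, ∀ v ∈ S, Y u < Y v → yv π (φ u) < yv π (φ v)) := by
  classical
  have him : S.image (rk X S) = range S.card := by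
    refine eq_of_subset_of_card_le ?_ ?_
    · intro i hi
      obtain ⟨v, hv, rfl⟩ := mem_image.1 hi
      exact mem_range.2 (rk_lt_card hv)
    · rw [card_range, card_image_of_injOn]
      intro u hu v hv h
      exact rk_inj hX hu hv h
  have hex : ∀ i ∈ range S.card, ∃ v, v ∈ S ∧ rk X S v = i := by
    intro i hi
    rw [← him] at hi
    obtain ⟨v, hv, rfl⟩ := mem_image.1 hi
    exact ⟨v, hv, rfl⟩
  obtain ⟨v0, hv0⟩ := hne
  haveI : Nonempty V := ⟨v0⟩
  choose! ψ hψ1 hψ2 using hex
  set π := (List.range S.card).map (fun i => rk Y S (ψ i)) with hπ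
  have hlen : π.length = S.card := by simp [hπ]
  have hyv : ∀ i < S.card, yv π i = rk Y S (ψ i) := by
    intro i hi
    rw [yv_eq (by omega)]
    simp [hπ]
  have hψinj : ∀ i < S.card, ∀ j < S.card, ψ i = ψ j → i = j := by
    intro i hi j hj h
    rw [← hψ2 i (mem_range.2 hi), ← hψ2 j (mem_range.2 hj), h]
  have hperm : IsPerm π := by
    refine List.perm_of_nodup_nodup_toFinset_eq ?_ List.nodup_range ?_
    · rw [hπ]
      refine List.Nodup.map_on ?_ List.nodup_range
      intro i hi j hj h
      rw [List.mem_range] at hi hj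
      exact hψinj i hi j hj (rk_inj hY (hψ1 i (mem_range.2 hi)) (hψ1 j (mem_range.2 hj)) h)
    · refine eq_of_subset_of_card_le ?_ ?_
      · intro b hb
        rw [List.mem_toFinset, hπ, List.mem_map] at hb
        obtain ⟨i, hi, rfl⟩ := hb
        rw [List.mem_range] at hi
        rw [List.mem_toFinset, List.mem_range, hlen]
        exact rk_lt_card (hψ1 i (mem_range.2 hi))
      · rw [List.toFinset_card_of_nodup List.nodup_range, List.length_range]
        rw [List.toFinset_card_of_nodup]
        rw [hπ]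
        refine List.Nodup.map_on ?_ List.nodup_range
        intro i hi j hj h
        rw [List.mem_range] at hi hj
        exact hψinj i hi j hj (rk_inj hY (hψ1 i (mem_range.2 hi)) (hψ1 j (mem_range.2 hj)) h)
  refine ⟨π, hperm, hlen, ⟨ψ, ⟨?_, ?_, ?_⟩⟩, rk X S, ?_, ?_, ?_, ?_⟩
  · intro i hi
    exact hψ1 i (mem_range.2 (by omega))
  · intro i hi j hj hij
    apply lt_of_rk_lt (S := S)
    rw [hψ2 i (mem_range.2 (by omega)), hψ2 j (mem_range.2 (by omega))]
    exact hij
  · intro i hi j hj hij
    rw [hyv i (by omega), hyv j (by omega)] at hij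
    exact lt_of_rk_lt hij
  · intro v hv
    rw [hlen]
    exact rk_lt_card hv
  · intro u hu v hv h
    exact rk_inj hX hu hv h
  · intro u hu v hv h
    exact rk_lt hu h
  · intro u hu v hv h
    have e : ∀ v ∈ S, ψ (rk X S v) = v := fun v hv =>
      rk_inj hX (hψ1 _ (mem_range.2 (rk_lt_card hv))) hv
        (hψ2 _ (mem_range.2 (rk_lt_card hv)))
    rw [hyv _ (rk_lt_card hu), hyv _ (rk_lt_card hv), e u hu, e v hv]
    exact rk_lt hu h

end emb

end Pool.Agent.H593R3.PPM
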