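import Pool.Agent.H593R3.PPM.Pts

/-!
# The lower bound
-/

namespace Pool.Agent.H593R3.PPM

open Finset

variable {R t M w g : ℕ}

/-- balanced sets -/
theorem exists_balanced {V : Type} [DecidableEq V] {X Y : V → ℕ} {S : Finset V} {g : ℕ}
    (D : Finset V) {T : ℕ} (hT : 1 ≤ T) {A : Finset V} (hA : Bld X Y S g A) :
    2 * T < (A ∩ D).card →
    ∃ B, Bld X Y S g B ∧ T ≤ (B ∩ D).card ∧ (B ∩ D).card ≤ 2 * T := by
  induction hA with
  | leaf v hv =>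
    intro h
    have : ({v} ∩ D : Finset V).card ≤ 1 := by
      refine (card_le_card inter_subset_left).trans ?_
      simp
    omega
  | node A B hA hB hd hX hY ihA ihB =>
    intro h
    have e : ((A ∪ B) ∩ D).card = (A ∩ D).card + (B ∩ D).card := by
      rw [union_inter_distrib_right, card_union_of_disjoint]
      exact disjoint_of_subset_left inter_subset_left
        (disjoint_of_subset_right inter_subset_left hd)
    by_cases h1 : 2 * T < (A ∩ D).card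
    · exact ihA h1
    by_cases h2 : 2 * T < (B ∩ D).card
    · exact ihB h2
    by_cases h3 : T ≤ (A ∩ D).card
    · exact ⟨A, hA, h3, by omega⟩
    · exact ⟨B, hB, by omega, by omega⟩

/-- switches at different places have different colours or sides -/
theorem switch_aux {Z : ℕ × ℕ → ℕ} {A : Finset (ℕ × ℕ)} {c : ℕ × ℕ → ℕ}
    (hinj : Set.InjOn Z ((Pts R t M : Finset (ℕ × ℕ)) : Set (ℕ × ℕ))) (hA : A ⊆ Pts R t M)
    (hc : ∀ u ∈ A, ∀ v ∈ A, c u = c v → ∀ x ∈ Pts R t M, Z u < Z x → Z x < Z v →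
      x ∈ A ∧ c x = c u) {p q p' q' : ℕ × ℕ} {e e' : ℕ} (hp : p ∈ A) (hp' : p' ∈ A)
    (hq : q ∈ Pts R t M) (hq' : q' ∈ Pts R t M) (hqA : q ∉ A) (hqA' : q' ∉ A)
    (h1 : Z p ≤ 2 * e + 1) (h2 : Z q ≤ 2 * e + 1) (h3 : 2 * e' ≤ Z p' + 1)
    (h4 : 2 * e' ≤ Z q' + 1) (hee : e < e') (hcc : c p = c p')
    (hs : (Z p < Z q ∧ Z p' < Z q') ∨ (Z q < Z p ∧ Z q' < Z p')) : False := by
  rcases hs with ⟨h5, h6⟩ | ⟨h5, h6⟩
  · have h7 : Z q ≠ Z p' := fun h => hqA (by rw [hinj hq (hA hp') h]; exact hp')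
    exact hqA (hc p hp p' hp' hcc q hq h5 (by omega)).1
  · have h7 : Z p ≠ Z q' := fun h => hqA' (by rw [← hinj (hA hp) hq' h]; exact hp)
    exact hqA' (hc p hp p' hp' hcc q' hq' (by omega) h6).1

/-- the point of the diagonal at `l` -/
def dg (l : ℕ) : ℕ × ℕ := (2 * l + 1, 2 * l + 1)

/-- an arc -/
def ar (R w i : ℕ) : ℕ × ℕ := (2 * ep R w i, 2 * ep R w (i + 1))

theorem ep_pos (hR : 2 ≤ R) (w i : ℕ) : 0 < ep R w i :=
  Nat.mul_pos (Nat.pow_pos (by omega)) (by omega)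

/-- There is a clean scale: all its arcs have the label of their neighbours. -/
theorem exists_clean (hR : 2 ≤ R) (ht : 4 * g < t) {A : Finset (ℕ × ℕ)} (hA : A ⊆ Pts R t M)
    (hX : Cvx Prod.fst (Pts R t M) A g) (hY : Cvx Prod.snd (Pts R t M) A g) :
    ∃ w, 1 ≤ w ∧ w ≤ t ∧ ∀ i, ep R w (i + 1) < M →
      (dg (ep R w i) ∈ A ↔ dg (ep R w (i + 1)) ∈ A) := by
  classical
  obtain ⟨c, hc1, hc2⟩ := hX
  obtain ⟨d, hd1, hd2⟩ := hY
  by_contra hcon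
  push Not at hcon
  -- a code for each scale
  have hex : ∀ w ∈ Icc 1 t, ∃ k, k < 4 * g ∧ ∃ i p q, p ∈ A ∧ q ∈ Pts R t M ∧ q ∉ A ∧
      ((p.1 ≤ 2 * ep R w i + 1 ∧ q.1 ≤ 2 * ep R w i + 1 ∧ 2 * ep R w i ≤ p.1 + 1 ∧
        2 * ep R w i ≤ q.1 + 1 ∧
        ((p.1 < q.1 ∧ k = 4 * c p) ∨ (q.1 < p.1 ∧ k = 4 * c p + 1))) ∨
      (p.2 ≤ 2 * ep R w i + 1 ∧ q.2 ≤ 2 * ep R w i + 1 ∧ 2 * ep R w i ≤ p.2 + 1 ∧
        2 * ep R w i ≤ q.2 + 1 ∧
        ((p.2 < q.2 ∧ k = 4 * d p + 2) ∨ (q.2 < p.2 ∧ k = 4 * d p + 3)))) := by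
    intro w hw
    rw [mem_Icc] at hw
    obtain ⟨i, hi, hne⟩ := hcon w hw.1 hw.2
    have hlt := ep_lt_succ hR hw.1 i
    have harc : ar R w i ∈ Pts R t M := arc_mem hR hw.1 hw.2 hi
    have hd1' : dg (ep R w i) ∈ Pts R t M := diag_mem hR (by omega)
    have hd2' : dg (ep R w (i + 1)) ∈ Pts R t M := diag_mem hR hi
    -- first or second end
    by_cases ha : (dg (ep R w i) ∈ A ↔ ar R w i ∈ A)
    · have hb : ¬ (dg (ep R w (i + 1)) ∈ A ↔ ar R w i ∈ A) := by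
        intro hb
        rcases hne with h | h
        · exact h.2 (hb.2 (ha.1 h.1))
        · exact h.1 (ha.2 (hb.1 h.2))
      by_cases h1 : ar R w i ∈ A
      · have h2 : dg (ep R w (i + 1)) ∉ A := fun h => hb ⟨fun _ => h1, fun _ => h⟩
        refine ⟨4 * d (ar R w i) + 2, ?_, i + 1, _, _, h1, hd2', h2, Or.inr ?_⟩
        · have := hd1 _ h1; omega
        · simp only [ar, dg]
          refine ⟨by omega, by omega, by omega, by omega, Or.inl ⟨by omega, trivial⟩⟩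
      · have h2 : dg (ep R w (i + 1)) ∈ A := by
          by_contra h
          exact hb ⟨fun h' => absurd h' h, fun h' => absurd h' h1⟩
        refine ⟨4 * d (dg (ep R w (i + 1))) + 3, ?_, i + 1, _, _, h2, harc, h1, Or.inr ?_⟩
        · have := hd1 _ h2; omega
        · simp only [ar, dg]
          refine ⟨by omega, by omega, by omega, by omega, Or.inr ⟨by omega, trivial⟩⟩
    · by_cases h1 : ar R w i ∈ A
      · have h2 : dg (ep R w i) ∉ A := fun h => ha ⟨fun _ => h1, fun _ => h⟩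
        refine ⟨4 * c (ar R w i), ?_, i, _, _, h1, hd1', h2, Or.inl ?_⟩
        · have := hc1 _ h1; omega
        · simp only [ar, dg]
          refine ⟨by omega, by omega, by omega, by omega, Or.inl ⟨by omega, trivial⟩⟩
      · have h2 : dg (ep R w i) ∈ A := by
          by_contra h
          exact ha ⟨fun h' => absurd h' h, fun h' => absurd h' h1⟩
        refine ⟨4 * c (dg (ep R w i)) + 1, ?_, i, _, _, h2, harc, h1, Or.inl ?_⟩
        · have := hc1 _ h2; omega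
        · simp only [ar, dg]
          refine ⟨by omega, by omega, by omega, by omega, Or.inr ⟨by omega, trivial⟩⟩
  choose! k hk1 hk2 using hex
  obtain ⟨w, hw, w', hw', hne, hkk⟩ := exists_ne_map_eq_of_card_lt_of_maps_to
    (s := Icc 1 t) (t := range (4 * g)) (f := k) (by rw [card_range, Nat.card_Icc]; omega)
    (fun w hw => by rw [mem_coe, mem_range]; exact hk1 w hw)
  have key : ∀ w w', w ∈ Icc 1 t → w' ∈ Icc 1 t → k w = k w' →
      ∀ i, ∀ p q, p ∈ A → q ∈ Pts R t M → q ∉ A →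
      ((p.1 ≤ 2 * ep R w i + 1 ∧ q.1 ≤ 2 * ep R w i + 1 ∧ 2 * ep R w i ≤ p.1 + 1 ∧
        2 * ep R w i ≤ q.1 + 1 ∧
        ((p.1 < q.1 ∧ k w = 4 * c p) ∨ (q.1 < p.1 ∧ k w = 4 * c p + 1))) ∨
      (p.2 ≤ 2 * ep R w i + 1 ∧ q.2 ≤ 2 * ep R w i + 1 ∧ 2 * ep R w i ≤ p.2 + 1 ∧
        2 * ep R w i ≤ q.2 + 1 ∧
        ((p.2 < q.2 ∧ k w = 4 * d p + 2) ∨ (q.2 < p.2 ∧ k w = 4 * d p + 3)))) →
      ∀ i' p' q', p' ∈ A → q' ∈ Pts R t M → q' ∉ A →
      ((p'.1 ≤ 2 * ep R w' i' + 1 ∧ q'.1 ≤ 2 * ep R w' i' + 1 ∧ 2 * ep R w' i' ≤ p'.1 + 1 ∧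
        2 * ep R w' i' ≤ q'.1 + 1 ∧
        ((p'.1 < q'.1 ∧ k w' = 4 * c p') ∨ (q'.1 < p'.1 ∧ k w' = 4 * c p' + 1))) ∨
      (p'.2 ≤ 2 * ep R w' i' + 1 ∧ q'.2 ≤ 2 * ep R w' i' + 1 ∧ 2 * ep R w' i' ≤ p'.2 + 1 ∧
        2 * ep R w' i' ≤ q'.2 + 1 ∧
        ((p'.2 < q'.2 ∧ k w' = 4 * d p' + 2) ∨ (q'.2 < p'.2 ∧ k w' = 4 * d p' + 3)))) →
      ep R w i < ep R w' i' → False := by
    intro w w' hw hw' hkk i p q hp hq hqA h i' p' q' hp' hq' hqA' h' hlt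
    rcases h with ⟨h1, h2, h3, h4, h5⟩ | ⟨h1, h2, h3, h4, h5⟩ <;>
      rcases h' with ⟨h1', h2', h3', h4', h5'⟩ | ⟨h1', h2', h3', h4', h5'⟩
    · refine switch_aux (Z := Prod.fst) (c := c) (injOn_fst hR) hA hc2 hp hp' hq hq' hqA hqA' h1 h2
        h3' h4' hlt (by rcases h5 with h5 | h5 <;> rcases h5' with h5' | h5' <;> omega) ?_
      rcases h5 with h5 | h5 <;> rcases h5' with h5' | h5'
      · exact Or.inl ⟨h5.1, h5'.1⟩
      · omega
      · omega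
      · exact Or.inr ⟨h5.1, h5'.1⟩
    · rcases h5 with h5 | h5 <;> rcases h5' with h5' | h5' <;> omega
    · rcases h5 with h5 | h5 <;> rcases h5' with h5' | h5' <;> omega
    · refine switch_aux (Z := Prod.snd) (c := d) (injOn_snd hR) hA hd2 hp hp' hq hq' hqA hqA' h1 h2
        h3' h4' hlt (by rcases h5 with h5 | h5 <;> rcases h5' with h5' | h5' <;> omega) ?_
      rcases h5 with h5 | h5 <;> rcases h5' with h5' | h5'
      · exact Or.inl ⟨h5.1, h5'.1⟩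
      · omega
      · omega
      · exact Or.inr ⟨h5.1, h5'.1⟩
  obtain ⟨i, p, q, hp, hq, hqA, h⟩ := hk2 w hw
  obtain ⟨i', p', q', hp', hq', hqA', h'⟩ := hk2 w' hw'
  have hw1 := (mem_Icc.1 hw).1
  have hw1' := (mem_Icc.1 hw').1
  rcases lt_trichotomy (ep R w i) (ep R w' i') with h1 | h1 | h1
  · exact key w w' hw hw' hkk i p q hp hq hqA h i' p' q' hp' hq' hqA' h' h1
  · exact hne (ep_inj hR hw1 hw1' h1).1
  · exact key w' w hw' hw hkk.symm i' p' q' hp' hq' hqA' h' i p q hp hq hqA h h1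

end Pool.Agent.H593R3.PPM
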