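import Pool.Agent.H593R3.PPM.Lower

/-!
# The lower bound, final step
-/

namespace Pool.Agent.H593R3.PPM

open Finset

variable {R t M w g : ℕ}

/-- the index of the stretch containing `l` -/
def st (R w l : ℕ) : ℕ := (l + (R ^ (2 * w) - R ^ (2 * w - 1))) / R ^ (2 * w)

theorem pow_lt_pow_aux (hR : 2 ≤ R) (hw : 1 ≤ w) : R ^ (2 * w - 1) < R ^ (2 * w) :=
  Nat.pow_lt_pow_right (by omega) (by omega)

theorem ep_zero : ep R w 0 = R ^ (2 * w - 1) := by simp [ep]

theorem ep_eq (hw : 1 ≤ w) (i : ℕ) : ep R w i = R ^ (2 * w - 1) + i * R ^ (2 * w) := by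
  have := ep_add (R := R) hw 0 i
  rw [Nat.zero_add, ep_zero] at this
  exact this

/-- `l` is before the end of its stretch -/
theorem lt_of_st (hR : 2 ≤ R) (hw : 1 ≤ w) {l j : ℕ} (h : st R w l ≤ j) : l < ep R w j := by
  have h1 := pow_lt_pow_aux hR hw
  have h0 : 0 < R ^ (2 * w) := Nat.pow_pos (by omega)
  rw [ep_eq hw]
  have h2 : l + (R ^ (2 * w) - R ^ (2 * w - 1)) < (st R w l + 1) * R ^ (2 * w) :=
    (Nat.div_lt_iff_lt_mul h0).1 (Nat.lt_succ_self _)
  have h3 : (st R w l + 1) * R ^ (2 * w) ≤ (j + 1) * R ^ (2 * w) := Nat.mul_le_mul_right _ (by omega)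
  have h4 : (j + 1) * R ^ (2 * w) = j * R ^ (2 * w) + R ^ (2 * w) := by ring
  omega

theorem ge_of_st (hR : 2 ≤ R) (hw : 1 ≤ w) {l j : ℕ} (h : j + 1 ≤ st R w l) : ep R w j ≤ l := by
  have h1 := pow_lt_pow_aux hR hw
  have h2 : st R w l * R ^ (2 * w) ≤ l + (R ^ (2 * w) - R ^ (2 * w - 1)) := Nat.div_mul_le_self _ _
  have h3 : (j + 1) * R ^ (2 * w) ≤ st R w l * R ^ (2 * w) := Nat.mul_le_mul_right _ h
  have h4 : (j + 1) * R ^ (2 * w) = j * R ^ (2 * w) + R ^ (2 * w) := by ring
  rw [ep_eq hw]
  omega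

theorem fiber_card (hR : 2 ≤ R) (O : Finset ℕ) (w j : ℕ) :
    (O.filter (fun l => st R w l = j)).card ≤ R ^ (2 * w) := by
  have h0 : 0 < R ^ (2 * w) := Nat.pow_pos (by omega)
  have : (Ico (j * R ^ (2 * w)) ((j + 1) * R ^ (2 * w))).card = R ^ (2 * w) := by
    rw [Nat.card_Ico, ← Nat.sub_mul]
    simp
  rw [← this]
  refine card_le_card_of_injOn (fun l => l + (R ^ (2 * w) - R ^ (2 * w - 1))) ?_ ?_
  · intro l hl
    have hl' := (mem_filter.1 (mem_coe.1 hl)).2
    rw [mem_coe, mem_Ico, ← hl']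
    exact ⟨Nat.div_mul_le_self _ _, (Nat.div_lt_iff_lt_mul h0).1 (Nat.lt_succ_self _)⟩
  · intro a _ b _ h
    dsimp only at h
    omega

theorem ep_mono (hR : 2 ≤ R) (hw : 1 ≤ w) {i j : ℕ} (h : i ≤ j) : ep R w i ≤ ep R w j := by
  rw [ep_eq hw, ep_eq hw]
  have : i * R ^ (2 * w) ≤ j * R ^ (2 * w) := Nat.mul_le_mul_right _ h
  omega

theorem not_bld (hR : 2 ≤ R) (hg : 1 ≤ g) (ht : 4 * g < t) (hM : M = 3 * ((g + 2) * R ^ (2 * t))) :
    ¬ Bl Prod.fst Prod.snd (Pts R t M) g (Pts R t M) := by
  classical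
  have hpos : 0 < R ^ (2 * t) := Nat.pow_pos (by omega)
  set T := (g + 2) * R ^ (2 * t) with hT
  have hT1 : 1 ≤ T := Nat.mul_pos (by omega) hpos
  rintro (h0 | hb)
  · have : dg 0 ∈ Pts R t M := diag_mem hR (by omega)
    rw [h0] at this
    exact notMem_empty _ this
  set D := (range M).image dg with hD
  have hdinj : Function.Injective dg := by
    intro a b h
    have := congrArg Prod.fst h
    simp only [dg] at this
    omega
  have hDcard : (Pts R t M ∩ D).card = M := by
    have : D ⊆ Pts R t M := by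
      intro v hv
      rw [hD, mem_image] at hv
      obtain ⟨l, hl, rfl⟩ := hv
      exact diag_mem hR (mem_range.1 hl)
    rw [inter_eq_right.2 this, hD, card_image_of_injective _ hdinj, card_range]
  obtain ⟨B, hB, hB1, hB2⟩ := exists_balanced D hT1 hb (by rw [hDcard]; omega)
  have hBcard : ((range M).filter (fun l => dg l ∈ B)).card = (B ∩ D).card := by
    have : B ∩ D = ((range M).filter (fun l => dg l ∈ B)).image dg := by
      ext v
      rw [mem_inter, hD, mem_image, mem_image]
      constructor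
      · rintro ⟨h1, l, h2, rfl⟩
        exact ⟨l, mem_filter.2 ⟨h2, h1⟩, rfl⟩
      · rintro ⟨l, h2, rfl⟩
        rw [mem_filter] at h2
        exact ⟨h2.2, l, h2.1, rfl⟩
    rw [this, card_image_of_injective _ hdinj]
  have hsplit := card_filter_add_card_filter_not (s := range M) (fun l => dg l ∈ B)
  rw [card_range] at hsplit
  obtain ⟨hX, hY⟩ := hB.cvx hg
  obtain ⟨w, hw1, hwt, hclean⟩ := exists_clean hR ht hB.subset hX hY
  have hconst : ∀ i, ep R w i < M → (dg (ep R w i) ∈ B ↔ dg (ep R w 0) ∈ B) := by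
    intro i
    induction i with
    | zero => intro _; rfl
    | succ i ih =>
      intro hi
      have := ep_lt_succ hR hw1 i
      rw [← ih (by omega)]
      exact (hclean i hi).symm
  obtain ⟨c, hc1, hc2⟩ := hX
  have hpow : R ^ (2 * w) ≤ R ^ (2 * t) := Nat.pow_le_pow_right (by omega) (by omega)
  have hfin : ∀ O : Finset ℕ, (O.image (st R w)).card ≤ g + 1 → O.card < T := by
    intro O hO
    have h1 := card_le_mul_card_image (s := O) (f := st R w) (R ^ (2 * w))
      (fun j _ => fiber_card hR O w j)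
    have h2 : R ^ (2 * w) * (O.image (st R w)).card ≤ R ^ (2 * t) * (g + 1) :=
      Nat.mul_le_mul hpow hO
    have h3 : T = R ^ (2 * t) * (g + 1) + R ^ (2 * t) := by rw [hT]; ring
    omega
  by_cases hlab : dg (ep R w 0) ∈ B
  · have hO := hfin ((range M).filter (fun l => ¬ dg l ∈ B)) ?_
    · omega
    set I := ((range M).filter (fun l => ¬ dg l ∈ B)).image (st R w) with hI
    have hsel : ∀ j ∈ I, ∃ l, l < M ∧ dg l ∉ B ∧ st R w l = j := by
      intro j hj
      rw [hI, mem_image] at hj
      obtain ⟨l, hl, rfl⟩ := hj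
      rw [mem_filter, mem_range] at hl
      exact ⟨l, hl.1, hl.2, rfl⟩
    have hmem : ∀ j ∈ I.erase 0, dg (ep R w (j - 1)) ∈ B := by
      intro j hj
      rw [mem_erase] at hj
      obtain ⟨l, hl1, hl2, rfl⟩ := hsel j hj.2
      have h1 := ge_of_st hR hw1 (j := st R w l - 1) (l := l) (by omega)
      exact (hconst _ (by omega)).2 hlab
    have hle : (I.erase 0).card ≤ g := by
      rw [← card_range g]
      refine card_le_card_of_injOn (fun j => c (dg (ep R w (j - 1)))) ?_ ?_
      · intro j hj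
        rw [mem_coe, mem_range]
        exact hc1 _ (hmem j (mem_coe.1 hj))
      · have key : ∀ j j', j ∈ I.erase 0 → j' ∈ I.erase 0 → j < j' →
            c (dg (ep R w (j - 1))) = c (dg (ep R w (j' - 1))) → False := by
          intro j j' hj hj' hlt hcc
          have hm := hmem j hj
          have hm' := hmem j' hj'
          rw [mem_erase] at hj hj'
          obtain ⟨l, hl1, hl2, rfl⟩ := hsel j hj.2
          have h1 := ge_of_st hR hw1 (j := st R w l - 1) (l := l) (by omega)
          have h2 := lt_of_st hR hw1 (l := l) (j := st R w l) le_rfl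
          have h3 := ep_mono hR hw1 (i := st R w l) (j := j' - 1) (by omega)
          have h4 : ep R w (st R w l - 1) ≠ l := fun h => hl2 (h ▸ hm)
          refine hl2 (hc2 _ hm _ hm' hcc (dg l) (diag_mem hR hl1) ?_ ?_).1 <;>
            simp only [dg] <;> omega
        intro j hj j' hj' hcc
        rcases lt_trichotomy j j' with h | h | h
        · exact (key j j' (mem_coe.1 hj) (mem_coe.1 hj') h hcc).elim
        · exact h
        · exact (key j' j (mem_coe.1 hj') (mem_coe.1 hj) h hcc.symm).elim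
    have := pred_card_le_card_erase (s := I) (a := 0)
    omega
  · have hO := hfin ((range M).filter (fun l => dg l ∈ B)) ?_
    · omega
    set I := ((range M).filter (fun l => dg l ∈ B)).image (st R w) with hI
    have hsel : ∀ j ∈ I, ∃ l, l < M ∧ dg l ∈ B ∧ st R w l = j := by
      intro j hj
      rw [hI, mem_image] at hj
      obtain ⟨l, hl, rfl⟩ := hj
      rw [mem_filter, mem_range] at hl
      exact ⟨l, hl.1, hl.2, rfl⟩
    choose! s hs1 hs2 hs3 using hsel
    have hle : I.card ≤ g := by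
      rw [← card_range g]
      refine card_le_card_of_injOn (fun j => c (dg (s j))) ?_ ?_
      · intro j hj
        rw [mem_coe, mem_range]
        exact hc1 _ (hs2 j (mem_coe.1 hj))
      · have key : ∀ j j', j ∈ I → j' ∈ I → j < j' → c (dg (s j)) = c (dg (s j')) → False := by
          intro j j' hj hj' hlt hcc
          have h1 := lt_of_st hR hw1 (l := s j) (j := j) (hs3 j hj).le
          have h2 := ge_of_st hR hw1 (l := s j') (j := j) (by rw [hs3 j' hj']; omega)
          have h3 := hs1 j' hj'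
          have h4 : dg (ep R w j) ∉ B := fun h => hlab ((hconst j (by omega)).1 h)
          have h5 : ep R w j ≠ s j' := fun h => h4 (h ▸ hs2 j' hj')
          refine h4 (hc2 _ (hs2 j hj) _ (hs2 j' hj') hcc (dg (ep R w j))
            (diag_mem hR (by omega)) ?_ ?_).1 <;> simp only [dg] <;> omega
        intro j hj j' hj' hcc
        rcases lt_trichotomy j j' with h | h | h
        · exact (key j j' (mem_coe.1 hj) (mem_coe.1 hj') h hcc).elim
        · exact h
        · exact (key j' j (mem_coe.1 hj') (mem_coe.1 hj) h hcc.symm).elim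
    omega

end Pool.Agent.H593R3.PPM
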