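import Pool.Agent.H593R3.PPM.Pts

/-!
# Small sets of points have grid-width at most four
-/

namespace Pool.Agent.H593R3.PPM

open Finset

variable {R t M w : ℕ} {S : Finset (ℕ × ℕ)}

/-- No point of `S` of scale at most `w` crosses `c`. -/
def Free (R : ℕ) (S : Finset (ℕ × ℕ)) (w c : ℕ) : Prop :=
  ∀ v ∈ S, Low R w v → v.1 < c → v.2 < c

open Classical in
/-- The points of `S` of scale at most `w` whose first coordinate is in `[a, c)`. -/
noncomputable def Pf (R : ℕ) (S : Finset (ℕ × ℕ)) (w a c : ℕ) : Finset (ℕ × ℕ) :=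
  S.filter (fun v => Low R w v ∧ a ≤ v.1 ∧ v.1 < c)

open Classical in
theorem mem_pf {a c : ℕ} {v : ℕ × ℕ} : v ∈ Pf R S w a c ↔ v ∈ S ∧ Low R w v ∧ a ≤ v.1 ∧ v.1 < c :=
  mem_filter

theorem Free.mono (hR : 2 ≤ R) {w w' c : ℕ} (h : Free R S w' c) (hw : w ≤ w') : Free R S w c :=
  fun v hv hl => h v hv (hl.mono hR hw)

theorem unique_mult {D a c x y : ℕ} (hD : 0 < D) (hac : c ≤ a + D) (hx : D ∣ x) (hy : D ∣ y)
    (h1 : a ≤ x) (h2 : x < c) (h3 : a ≤ y) (h4 : y < c) : x = y := by
  obtain ⟨k, rfl⟩ := hx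
  obtain ⟨l, rfl⟩ := hy
  have key : ∀ k l, a ≤ D * k → D * l < c → k < l → False := by
    intro k l h1 h4 hkl
    have : D * (k + 1) ≤ D * l := Nat.mul_le_mul_left D hkl
    rw [Nat.mul_succ] at this
    omega
  rcases lt_trichotomy k l with h | h | h
  · exact (key k l h1 h4 h).elim
  · rw [h]
  · exact (key l k h3 h2 h).elim

/-- Existence of free places. -/
theorem exists_free (hR : 2 ≤ R) (hS : S ⊆ Pts R t M) (hc : S.card < R) (w c0 : ℕ) :
    ∃ c, c0 ≤ c ∧ c < c0 + 2 * R ^ (2 * w + 1) ∧ Free R S w c := by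
  classical
  by_contra hcon
  push Not at hcon
  have hsub : Ico c0 (c0 + 2 * R ^ (2 * w + 1)) ⊆
      (S.filter (Low R w)).biUnion (fun v => Ioc v.1 v.2) := by
    intro c hcm
    rw [mem_Ico] at hcm
    have := hcon c hcm.1 hcm.2
    rw [Free] at this
    push Not at this
    obtain ⟨v, hv, hl, h1, h2⟩ := this
    rw [mem_biUnion]
    exact ⟨v, mem_filter.2 ⟨hv, hl⟩, mem_Ioc.2 ⟨h1, h2⟩⟩
  have h1 := card_le_card hsub
  rw [Nat.card_Ico] at h1
  have h2 : ((S.filter (Low R w)).biUnion (fun v => Ioc v.1 v.2)).card ≤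
      (S.filter (Low R w)).card * (2 * R ^ (2 * w)) := by
    refine card_biUnion_le_card_mul _ _ _ ?_
    intro v hv
    rw [Nat.card_Ioc]
    have := (mem_filter.1 hv).2
    rw [Low] at this
    omega
  have h3 : (S.filter (Low R w)).card ≤ S.card := card_le_card (filter_subset _ _)
  have h4 : (S.filter (Low R w)).card * (2 * R ^ (2 * w)) ≤ (R - 1) * (2 * R ^ (2 * w)) :=
    Nat.mul_le_mul_right _ (by omega)
  have h5 : (R - 1) * (2 * R ^ (2 * w)) < 2 * R ^ (2 * w + 1) := by
    have h6 : 0 < 2 * R ^ (2 * w) := Nat.mul_pos two_pos (Nat.pow_pos (by omega))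
    have h7 : (R - 1) * (2 * R ^ (2 * w)) < R * (2 * R ^ (2 * w)) :=
      Nat.mul_lt_mul_of_pos_right (by omega) h6
    rw [pow_succ]
    calc _ < _ := h7
      _ = _ := by ring
  omega

theorem cvx_fst (hR : 2 ≤ R) (hS : S ⊆ Pts R t M) {a c : ℕ} (hac : c ≤ a + 2 * R ^ (2 * w + 1)) :
    Cvx Prod.fst S (Pf R S w a c) 2 := by
  classical
  have hD : 0 < 2 * R ^ (2 * w + 1) := Nat.mul_pos two_pos (Nat.pow_pos (by omega))
  by_cases hex : ∃ z ∈ S, ¬ Low R w z ∧ a ≤ z.1 ∧ z.1 < c
  · obtain ⟨z, hz, hzl, hz1, hz2⟩ := hex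
    refine ⟨fun v => if v.1 < z.1 then 0 else 1, fun v _ => by dsimp only; split_ifs <;> omega, ?_⟩
    intro u hu v hv huv x hx h1 h2
    rw [mem_pf] at hu hv
    dsimp only at huv ⊢
    have hxa : a ≤ x.1 := by omega
    have hxc : x.1 < c := by omega
    by_cases hxl : Low R w x
    · refine ⟨mem_pf.2 ⟨hx, hxl, hxa, hxc⟩, ?_⟩
      by_cases h3 : u.1 < z.1
      · rw [if_pos h3] at huv ⊢
        have : v.1 < z.1 := by
          by_contra h4
          rw [if_neg h4] at huv
          omega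
        rw [if_pos (by omega)]
      · rw [if_neg h3, if_neg (by omega)]
    · exfalso
      have e := unique_mult hD hac (dvd_of_not_low hR (hS hx) hxl).1
        (dvd_of_not_low hR (hS hz) hzl).1 hxa hxc hz1 hz2
      rw [if_pos (by omega), if_neg (by omega)] at huv
      omega
  · refine ⟨fun v => 0, fun v _ => two_pos, ?_⟩
    intro u hu v hv huv x hx h1 h2
    rw [mem_pf] at hu hv
    refine ⟨mem_pf.2 ⟨hx, ?_, by omega, by omega⟩, rfl⟩
    by_contra hxl
    exact hex ⟨x, hx, hxl, by omega, by omega⟩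

theorem cvx_snd (hR : 2 ≤ R) (hS : S ⊆ Pts R t M) {a c : ℕ} (hac : c ≤ a + 2 * R ^ (2 * w + 1))
    (ha : Free R S w a)
    (hun : ∀ u ∈ S, ∀ v ∈ S, Low R w u → Low R w v → u.1 < c → c ≤ u.2 → v.1 < c → c ≤ v.2 →
      u = v) :
    Cvx Prod.snd S (Pf R S w a c) 3 := by
  classical
  have hD : 0 < 2 * R ^ (2 * w + 1) := Nat.mul_pos two_pos (Nat.pow_pos (by omega))
  have hlow : ∀ x ∈ S, Low R w x → a ≤ x.2 → x.2 < c → x ∈ Pf R S w a c := by
    intro x hx hxl h1 h2
    have h3 := pt_le hR (hS hx)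
    refine mem_pf.2 ⟨hx, hxl, ?_, by omega⟩
    by_contra h4
    have := ha x hx hxl (by omega)
    omega
  by_cases hex : ∃ z ∈ S, ¬ Low R w z ∧ a ≤ z.2 ∧ z.2 < c
  · obtain ⟨z, hz, hzl, hz1, hz2⟩ := hex
    refine ⟨fun v => if v.2 < z.2 then 0 else if v.2 < c then 1 else 2,
      fun v _ => by dsimp only; split_ifs <;> omega, ?_⟩
    intro u hu v hv huv x hx h1 h2
    rw [mem_pf] at hu hv
    dsimp only at huv ⊢
    have hu12 := pt_le hR (hS hu.1)
    by_cases hvc : v.2 < c
    · have hxa : a ≤ x.2 := by omega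
      have hxc : x.2 < c := by omega
      by_cases hxl : Low R w x
      · refine ⟨hlow x hx hxl hxa hxc, ?_⟩
        by_cases h3 : u.2 < z.2
        · rw [if_pos h3] at huv ⊢
          have : v.2 < z.2 := by
            by_contra h4
            rw [if_neg h4, if_pos hvc] at huv
            omega
          rw [if_pos (by omega)]
        · rw [if_neg h3, if_pos (by omega : u.2 < c), if_neg (by omega : ¬ x.2 < z.2), if_pos hxc]
      · exfalso
        have e := unique_mult hD hac (dvd_of_not_low hR (hS hx) hxl).2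
          (dvd_of_not_low hR (hS hz) hzl).2 hxa hxc hz1 hz2
        rw [if_pos (by omega : u.2 < z.2), if_neg (by omega : ¬ v.2 < z.2), if_pos hvc] at huv
        omega
    · exfalso
      rw [if_neg (by omega : ¬ v.2 < z.2), if_neg hvc] at huv
      have huc : ¬ u.2 < c := by
        intro h
        by_cases h' : u.2 < z.2
        · rw [if_pos h'] at huv; omega
        · rw [if_neg h', if_pos h] at huv; omega
      have := hun u hu.1 v hv.1 hu.2.1 hv.2.1 hu.2.2.2 (by omega) hv.2.2.2 (by omega)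
      subst this
      omega
  · refine ⟨fun v => if v.2 < c then 0 else 1, fun v _ => by dsimp only; split_ifs <;> omega, ?_⟩
    intro u hu v hv huv x hx h1 h2
    rw [mem_pf] at hu hv
    dsimp only at huv ⊢
    have hu12 := pt_le hR (hS hu.1)
    by_cases hvc : v.2 < c
    · have hxa : a ≤ x.2 := by omega
      have hxc : x.2 < c := by omega
      have hxl : Low R w x := by
        by_contra hxl
        exact hex ⟨x, hx, hxl, hxa, hxc⟩
      refine ⟨hlow x hx hxl hxa hxc, ?_⟩
      rw [if_pos hxc, if_pos (by omega)]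
    · exfalso
      rw [if_neg hvc] at huv
      have huc : ¬ u.2 < c := by
        intro h
        rw [if_pos h] at huv
        omega
      have := hun u hu.1 v hv.1 hu.2.1 hv.2.1 hu.2.2.2 (by omega) hv.2.2.2 (by omega)
      subst this
      omega

theorem claim_zero (hR : 2 ≤ R) (hS : S ⊆ Pts R t M) {a : ℕ} (ha : Free R S 0 a) :
    ∀ c, a ≤ c → c ≤ a + 2 * R ^ (2 * 0 + 1) → Bl Prod.fst Prod.snd S 4 (Pf R S 0 a c) := by
  intro c hac
  induction c, hac using Nat.le_induction with
  | base =>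
    intro _
    left
    ext v
    rw [mem_pf]
    simp only [notMem_empty, iff_false]
    omega
  | succ c hac ih =>
    intro hc
    have hun : ∀ u ∈ S, ∀ v ∈ S, Low R 0 u → Low R 0 v → u.1 < c + 1 → c + 1 ≤ u.2 →
        v.1 < c + 1 → c + 1 ≤ v.2 → u = v := by
      intro u hu v hv hlu _ h1 h2
      have := low_zero hR (hS hu) hlu
      omega
    have hX := (cvx_fst (w := 0) (a := a) (c := c + 1) hR hS hc).mono (by omega : 2 ≤ 4)
    have hY := (cvx_snd (w := 0) (a := a) (c := c + 1) hR hS hc ha hun).mono (by omega : 3 ≤ 4)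
    have e : Pf R S 0 a (c + 1) =
        Pf R S 0 a c ∪ (Pf R S 0 a (c + 1)).filter (fun v => v.1 = c) := by
      ext v
      rw [mem_union, mem_filter, mem_pf, mem_pf]
      constructor
      · rintro ⟨h1, h2, h3, h4⟩
        rcases Nat.lt_succ_iff_lt_or_eq.1 h4 with h5 | h5
        · exact Or.inl ⟨h1, h2, h3, h5⟩
        · exact Or.inr ⟨⟨h1, h2, h3, h4⟩, h5⟩
      · rintro (⟨h1, h2, h3, h4⟩ | ⟨h, -⟩)
        · exact ⟨h1, h2, h3, by omega⟩
        · exact h
    rw [e] at hX hY
    rw [e]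
    refine (ih (by omega)).join (Bl.small ?_ ?_) ?_ hX hY
    · intro v hv
      exact (mem_pf.1 (mem_filter.1 hv).1).1
    · rw [card_le_one]
      intro x hx y hy
      rw [mem_filter, mem_pf] at hx hy
      exact injOn_fst hR (hS hx.1.1) (hS hy.1.1) (hx.2.trans hy.2.symm)
    · rw [disjoint_left]
      intro x hx hy
      rw [mem_filter] at hy
      rw [mem_pf] at hx
      omega

theorem claim_succ (hR : 2 ≤ R) (hS : S ⊆ Pts R t M) (hcard : S.card < R) (w : ℕ)
    (ih : ∀ a c, Free R S w a → Free R S w c → a ≤ c → c ≤ a + 2 * R ^ (2 * w + 1) →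
      Bl Prod.fst Prod.snd S 4 (Pf R S w a c))
    {a : ℕ} (ha : Free R S (w + 1) a) :
    ∀ c, a ≤ c → c ≤ a + 2 * R ^ (2 * (w + 1) + 1) → Free R S w c →
      Bl Prod.fst Prod.snd S 4 (Pf R S (w + 1) a c) := by
  intro c
  induction c using Nat.strong_induction_on with
  | _ c IH =>
    intro hac hc hfc
    rcases Nat.eq_or_lt_of_le hac with rfl | hlt
    · left
      ext v
      rw [mem_pf]
      simp only [notMem_empty, iff_false]
      omega
    have haw : Free R S w a := ha.mono hR (by omega)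
    obtain ⟨c', h1, h2, h3, h4⟩ : ∃ c', a ≤ c' ∧ c' < c ∧ c ≤ c' + 2 * R ^ (2 * w + 1) ∧
        Free R S w c' := by
      by_cases hs : c ≤ a + 2 * R ^ (2 * w + 1)
      · exact ⟨a, le_rfl, hlt, hs, haw⟩
      · obtain ⟨c', h5, h6, h7⟩ := exists_free hR hS hcard w (c - 2 * R ^ (2 * w + 1))
        exact ⟨c', by omega, by omega, by omega, h7⟩
    have hD : 0 < 2 * R ^ (2 * w + 1) := Nat.mul_pos two_pos (Nat.pow_pos (by omega))
    have hun : ∀ u ∈ S, ∀ v ∈ S, Low R (w + 1) u → Low R (w + 1) v → u.1 < c → c ≤ u.2 →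
        v.1 < c → c ≤ v.2 → u = v := by
      intro u hu v hv hlu hlv h5 h6 h7 h8
      have hnu : ¬ Low R w u := fun h => by have := hfc u hu h h5; omega
      have hnv : ¬ Low R w v := fun h => by have := hfc v hv h h7; omega
      obtain ⟨i, rfl⟩ := exact_scale hR (hS hu) hnu hlu
      obtain ⟨j, rfl⟩ := exact_scale hR (hS hv) hnv hlv
      dsimp only at h5 h6 h7 h8
      rw [cross_unique (c := c) hR (i := i) (j := j) (w := w + 1) (by omega) h5 h6 h7 h8]
    have hX := cvx_fst (w := w + 1) (a := a) (c := c) hR hS hc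
    have hY := cvx_snd (w := w + 1) (a := a) (c := c) hR hS hc ha hun
    -- the new arc
    set U := (Pf R S (w + 1) a c).filter (fun v => v ∉ Pf R S (w + 1) a c' ∪ Pf R S w c' c)
      with hU
    have hUcard : U.card ≤ 1 := by
      rw [card_le_one]
      have key : ∀ x ∈ U, x ∈ S ∧ ¬ Low R w x ∧ c' ≤ x.1 ∧ x.1 < c := by
        intro x hx
        rw [hU, mem_filter, mem_pf, mem_union, mem_pf, mem_pf] at hx
        obtain ⟨⟨h5, h6, h7, h8⟩, h9⟩ := hx
        push Not at h9
        have h10 : c' ≤ x.1 := h9.1 h5 h6 h7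
        refine ⟨h5, fun hl => ?_, h10, h8⟩
        have := h9.2 h5 hl h10
        omega
      intro x hx y hy
      obtain ⟨hx1, hx2, hx3, hx4⟩ := key x hx
      obtain ⟨hy1, hy2, hy3, hy4⟩ := key y hy
      exact injOn_fst hR (hS hx1) (hS hy1)
        (unique_mult hD h3 (dvd_of_not_low hR (hS hx1) hx2).1
          (dvd_of_not_low hR (hS hy1) hy2).1 hx3 hx4 hy3 hy4)
    have e : Pf R S (w + 1) a c = (Pf R S (w + 1) a c' ∪ Pf R S w c' c) ∪ U := by
      ext v
      rw [mem_union, hU, mem_filter]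
      constructor
      · intro h
        by_cases h' : v ∈ Pf R S (w + 1) a c' ∪ Pf R S w c' c
        · exact Or.inl h'
        · exact Or.inr ⟨h, h'⟩
      · rintro (h | h)
        · rw [mem_union, mem_pf, mem_pf] at h
          rw [mem_pf]
          rcases h with ⟨h5, h6, h7, h8⟩ | ⟨h5, h6, h7, h8⟩
          · exact ⟨h5, h6, h7, by omega⟩
          · exact ⟨h5, h6.mono hR (by omega), by omega, h8⟩
        · exact h.1
    have hdU : Disjoint (Pf R S (w + 1) a c' ∪ Pf R S w c' c) U := by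
      rw [disjoint_left]
      intro x hx hy
      rw [hU, mem_filter] at hy
      exact hy.2 hx
    have hA1 : Cvx Prod.fst S (Pf R S (w + 1) a c' ∪ Pf R S w c' c) 4 ∧
        Cvx Prod.snd S (Pf R S (w + 1) a c' ∪ Pf R S w c' c) 4 := by
      rcases U.eq_empty_or_nonempty with h0 | h0
      · rw [h0, union_empty] at e
        rw [← e]
        exact ⟨hX.mono (by omega), hY.mono (by omega)⟩
      · obtain ⟨u, hu⟩ := card_eq_one.1 (le_antisymm hUcard h0.card_pos)
        have e2 : Pf R S (w + 1) a c' ∪ Pf R S w c' c = (Pf R S (w + 1) a c).erase u := by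
          rw [e, hu]
          rw [hu, disjoint_singleton_right] at hdU
          ext v
          rw [mem_erase]
          constructor
          · intro h
            exact ⟨fun h' => hdU (h' ▸ h), mem_union_left _ h⟩
          · rintro ⟨h5, h6⟩
            rcases mem_union.1 h6 with h7 | h7
            · exact h7
            · exact absurd (mem_singleton.1 h7) h5
        rw [e2]
        exact ⟨(hX.erase u).mono (by omega), (hY.erase u).mono (by omega)⟩
    have hX' := hX.mono (by omega : 2 ≤ 4)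
    have hY' := hY.mono (by omega : 3 ≤ 4)
    rw [e] at hX' hY' ⊢
    refine Bl.join (Bl.join (IH c' h2 h1 (by omega) h4) (ih c' c h4 hfc h2.le h3) ?_ hA1.1 hA1.2)
      (Bl.small ?_ hUcard) hdU hX' hY'
    · rw [disjoint_left]
      intro x hx hy
      rw [mem_pf] at hx hy
      omega
    · intro v hv
      rw [hU, mem_filter, mem_pf] at hv
      exact hv.1.1

theorem claim (hR : 2 ≤ R) (hS : S ⊆ Pts R t M) (hcard : S.card < R) : ∀ (w a c : ℕ),
    Free R S w a → Free R S w c → a ≤ c → c ≤ a + 2 * R ^ (2 * w + 1) →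
      Bl Prod.fst Prod.snd S 4 (Pf R S w a c)
  | 0, a, c, ha, _, hac, hc => claim_zero hR hS ha c hac hc
  | w + 1, a, c, ha, hfc, hac, hc =>
    claim_succ hR hS hcard w (claim hR hS hcard w) ha c hac hc (hfc.mono hR (by omega))

/-- Sets of fewer than `R` points have grid-width at most `4`. -/
theorem bl_small (hR : 2 ≤ R) (hM : M ≤ R ^ (2 * t + 1)) (hS : S ⊆ Pts R t M)
    (hcard : S.card < R) : Bl Prod.fst Prod.snd S 4 S := by
  have h := claim hR hS hcard t 0 (2 * M) (fun v _ _ h => by omega)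
    (fun v hv _ _ => pt_snd_lt hR (hS hv)) (by omega) (by omega)
  have e : Pf R S t 0 (2 * M) = S := by
    ext v
    rw [mem_pf]
    constructor
    · exact fun h => h.1
    · intro hv
      have h1 := pt_le hR (hS hv)
      have h2 := pt_snd_lt hR (hS hv)
      exact ⟨hv, low_all hR (hS hv), by omega, by omega⟩
  rwa [e] at h

end Pool.Agent.H593R3.PPM
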