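import Pool.Agent.H593R3.PPM.Lower2
import Pool.Agent.H593R3.PPM.Small

/-!
# Permutations of large grid-width all of whose small patterns have grid-width at most four
-/

namespace Pool.Agent.H593R3.PPM

open Finset

theorem wild_aux {R t M g : ℕ} (hR : 2 ≤ R) (hg : 1 ≤ g) (ht : 4 * g < t)
    (hM : M = 3 * ((g + 2) * R ^ (2 * t))) (hMle : M ≤ R ^ (2 * t + 1)) (hMpos : 0 < M) :
    ∃ π, IsPerm π ∧ g < gw π ∧ (∀ σ, IsPerm σ → Contains π σ → gw σ ≤ t + 1) ∧
    (∀ σ, IsPerm σ → Contains π σ → σ.length < R → gw σ ≤ 4) := by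
  classical
  have hne : (Pts R t M).Nonempty := ⟨_, diag_mem hR hMpos⟩
  obtain ⟨π, hπ, hlen, ⟨h, hh⟩, φ, hφ1, hφ2, hφ3, hφ4⟩ :=
    exists_perm (X := Prod.fst) (Y := Prod.snd) hne (injOn_fst hR) (injOn_snd hR)
  refine ⟨π, hπ, ?_, ?_, ?_⟩
  · by_contra hcon
    have h1 : gw π ≤ g := by omega
    rw [gw_le_iff hπ hg] at h1
    have h2 := Bl.pull (X' := Prod.fst) (Y' := Prod.snd) (S' := Pts R t M) (h := φ)
      (fun v hv => mem_range.2 (hφ1 v hv)) hφ2 (fun a ha b hb hab => hφ3 a ha b hb hab)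
      (fun a ha b hb hab => hφ4 a ha b hb hab) h1
    have e : (Pts R t M).filter (fun v => φ v ∈ range π.length) = Pts R t M := by
      rw [filter_eq_self]
      intro v hv
      exact mem_range.2 (hφ1 v hv)
    rw [e] at h2
    exact not_bld hR hg ht hM h2
  · intro σ hσ hc
    obtain ⟨f, hf⟩ := hc.emb
    have he := hh.comp hf
    exact gw_le_of_emb hσ he (Nat.succ_pos t) he.mem (bl_all hR (subset_refl _))
  · intro σ hσ hc hlt
    obtain ⟨f, hf⟩ := hc.emb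
    have he := hh.comp hf
    obtain ⟨S, hS⟩ : ∃ S, S = (range σ.length).image (fun i => h (f i)) := ⟨_, rfl⟩
    have hmem : ∀ i < σ.length, h (f i) ∈ S := fun i hi => by
      rw [hS]
      exact mem_image_of_mem (fun i => h (f i)) (mem_range.2 hi)
    have hsub : S ⊆ Pts R t M := by
      intro v hv
      rw [hS, mem_image] at hv
      obtain ⟨i, hi, rfl⟩ := hv
      exact he.mem i (mem_range.1 hi)
    have hcard : S.card < R := by
      have : S.card ≤ (range σ.length).card := by rw [hS]; exact card_image_le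
      rw [card_range] at this
      omega
    have he' : EmbIn Prod.fst Prod.snd S σ (fun i => h (f i)) := ⟨hmem, he.x, he.y⟩
    exact gw_le_of_emb hσ he' (by omega) hmem (bl_small hR hMle hsub hcard)

theorem exists_wild (g : ℕ) : ∃ G, ∀ N, ∃ π, IsPerm π ∧ g < gw π ∧
    (∀ σ, IsPerm σ → Contains π σ → gw σ ≤ G) ∧
    (∀ σ, IsPerm σ → Contains π σ → σ.length < N → gw σ ≤ 4) := by
  obtain ⟨g', hg'⟩ : ∃ g', g' = g + 1 := ⟨_, rfl⟩
  obtain ⟨t, ht⟩ : ∃ t, t = 4 * g' + 1 := ⟨_, rfl⟩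
  refine ⟨t + 1, fun N => ?_⟩
  obtain ⟨R, hRd⟩ : ∃ R, R = N + 3 * (g' + 2) := ⟨_, rfl⟩
  obtain ⟨M, hM⟩ : ∃ M, M = 3 * ((g' + 2) * R ^ (2 * t)) := ⟨_, rfl⟩
  have hR : 2 ≤ R := by omega
  have hpos : 0 < R ^ (2 * t) := Nat.pow_pos (by omega)
  have hMle : M ≤ R ^ (2 * t + 1) := by
    rw [hM, pow_succ, ← mul_assoc, mul_comm]
    exact Nat.mul_le_mul_left _ (by omega)
  have hMpos : 0 < M := by
    rw [hM]
    exact Nat.mul_pos (by omega) (Nat.mul_pos (by omega) hpos)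
  obtain ⟨π, h1, h2, h3, h4⟩ := wild_aux (g := g') hR (by omega) (by omega) hM hMle hMpos
  exact ⟨π, h1, by omega, h3, fun σ hσ hc hlt => h4 σ hσ hc (by omega)⟩

end Pool.Agent.H593R3.PPM
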