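import Pool.Agent.H593R3.PPM.AlgP
import Pool.Agent.H593R3.PPM.Wild
import Pool.Agent.H660R2.NX.Run
import Pool.Agent.H550R2.Iso.Raw

/-!
# Classes with slowly growing grid-width
-/

namespace Pool.Agent.H593R3.PPM

open Pool.Agent.NPC Finset
open Pool.Agent.H660R2.NX (poly_of_polyTime polyTime_of_poly')

/-- The permutations all of whose patterns `σ'` have grid-width at most `h |σ'|`. -/
def cl (h : ℕ → ℕ) : Set (List ℕ) :=
  {σ | IsPerm σ ∧ ∀ σ', IsPerm σ' → Contains σ σ' → gw σ' ≤ h σ'.length}

theorem cl_class (h : ℕ → ℕ) : PermClass (cl h) := by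
  refine ⟨fun π hπ => hπ.1, fun τ hτ π hπ hc => ⟨hπ, fun σ hσ hc' => ?_⟩⟩
  exact hτ.2 σ hσ (hc.trans hσ hc')

theorem cl_unbounded {h : ℕ → ℕ} (h4 : ∀ n, 4 ≤ h n) (hinf : ∀ G, ∃ N, ∀ n, N ≤ n → G ≤ h n) :
    UnboundedGW (cl h) := by
  intro g
  obtain ⟨G, hG⟩ := exists_wild g
  obtain ⟨N, hN⟩ := hinf G
  obtain ⟨π, h1, h2, h3, h5⟩ := hG N
  refine ⟨π, ⟨h1, fun σ hσ hc => ?_⟩, h2⟩
  rcases lt_or_ge σ.length N with h6 | h6
  · exact (h5 σ hσ hc h6).trans (h4 _)
  · exact (h3 σ hσ hc).trans (hN _ h6)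

theorem cl_congr {h h' : ℕ → ℕ} {N : ℕ} (hh : ∀ n < N, h n = h' n) {σ : List ℕ}
    (hσ : σ.length < N) : σ ∈ cl h ↔ σ ∈ cl h' := by
  have key : ∀ h h' : ℕ → ℕ, (∀ n < N, h n = h' n) → σ ∈ cl h → σ ∈ cl h' := by
    intro h h' hh h1
    refine ⟨h1.1, fun σ' h2 h3 => ?_⟩
    rw [← hh _ (lt_of_le_of_lt h3.length_le hσ)]
    exact h1.2 σ' h2 h3
  exact ⟨key h h' hh, key h' h (fun n hn => (hh n hn).symm)⟩

/-- test for permutations -/
def permB (π : List ℕ) : Bool := (List.range π.length).all (fun i => decide (i ∈ π))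

theorem permB_iff {π : List ℕ} : permB π = true ↔ IsPerm π := by
  rw [permB, List.all_eq_true]
  constructor
  · intro h
    have h1 : List.Subperm (List.range π.length) π :=
      List.nodup_range.subperm fun i hi => by simpa using h i hi
    exact (h1.perm_of_length_le (by simp)).symm
  · intro h i hi
    rw [decide_eq_true_eq, h.mem_iff]
    exact hi

theorem poly_permB : Poly permB := by
  unfold permB
  exact Poly.all (poly_rangeL Poly.id) (by fun_prop)

/-- If the bound is eventually constant, the problem is in `P`. -/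
theorem inPP_cl {h : ℕ → ℕ} {G N : ℕ} (hG : 1 ≤ G) (hle : ∀ n, h n ≤ G)
    (hN : ∀ n, N ≤ n → h n = G) : InPP (PatternPPM (cl h)) := by
  classical
  -- the finitely many forbidden patterns
  obtain ⟨F0, hF0⟩ : ∃ F0 : List (List ℕ), F0 = ((List.range N).flatMap (fun k =>
    (List.range k).permutations)).filter (fun σ => decide (IsPerm σ ∧ h σ.length < gw σ)) :=
    ⟨_, rfl⟩
  have hF : ∀ σ, σ ∈ F0 ↔ σ.length < N ∧ IsPerm σ ∧ h σ.length < gw σ := by
    intro σ
    rw [hF0, List.mem_filter, List.mem_flatMap, decide_eq_true_eq]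
    constructor
    · rintro ⟨⟨k, hk, hσ⟩, h1, h2⟩
      rw [List.mem_range] at hk
      rw [List.mem_permutations] at hσ
      have := hσ.length_eq
      rw [List.length_range] at this
      exact ⟨by omega, h1, h2⟩
    · rintro ⟨h0, h1, h2⟩
      exact ⟨⟨σ.length, List.mem_range.2 h0, List.mem_permutations.2 h1⟩, h1, h2⟩
  obtain ⟨g1, hg1⟩ : ∃ g1, g1 = (F0.map gw).sum + 1 := ⟨_, rfl⟩
  have hg1' : ∀ σ ∈ F0, gw σ ≤ g1 := by
    intro σ hσ
    have : gw σ ≤ (F0.map gw).sum := List.le_sum_of_mem (List.mem_map_of_mem hσ)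
    omega
  have hmem : ∀ π, IsPerm π → (π ∈ cl h ↔ gw π ≤ G ∧ ∀ σ ∈ F0, ¬ Contains π σ) := by
    intro π hπ
    constructor
    · intro h1
      refine ⟨(h1.2 π hπ (Contains.refl π)).trans (hle _), fun σ hσ hc => ?_⟩
      have h2 := (hF σ).1 hσ
      have h3 := h1.2 σ h2.2.1 hc
      omega
    · rintro ⟨h1, h2⟩
      refine ⟨hπ, fun σ hσ hc => ?_⟩
      rcases lt_or_ge σ.length N with h3 | h3
      · by_contra h4
        exact h2 σ ((hF σ).2 ⟨h3, hσ, by omega⟩) hc
      · rw [hN _ h3]
        exact gw_mono hπ hσ hc hG h1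
  refine inPP_of (d := fun p : List ℕ × List ℕ => (permB p.1 && permB p.2) && (alg G p.1 p.2 &&
    F0.all (fun σ => !(alg g1 σ p.1)))) ?_ ?_
  · refine Poly.and (Poly.and (poly_permB.comp (Poly.fst Poly.id))
      (poly_permB.comp (Poly.snd Poly.id))) (Poly.and (poly_alg G) (Poly.all
        (l := fun _ : List ℕ × List ℕ => F0) (p := fun p σ => !(alg g1 σ p.1))
        (NPC.Poly.const F0) (Poly.not ?_)))
    exact (poly_alg g1).comp (f := fun q : (List ℕ × List ℕ) × List ℕ => (q.2, q.1.1))
      (by fun_prop)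
  · rintro ⟨π, τ⟩
    rw [PatternPPM, Bool.and_eq_true, Bool.and_eq_true, Bool.and_eq_true, permB_iff, permB_iff,
      List.all_eq_true]
    dsimp only
    constructor
    · rintro ⟨h1, h2, h3⟩
      have h4 := (hmem π h1.1).1 h1
      refine ⟨⟨h1.1, h2⟩, (alg_iff hG h1.1 h2).2 ⟨h4.1, h3⟩, fun σ hσ => ?_⟩
      rw [Bool.not_eq_true', ← Bool.not_eq_true, alg_iff (by omega) ((hF σ).1 hσ).2.1 h1.1]
      exact fun h5 => h4.2 σ hσ h5.2
    · rintro ⟨⟨h1, h2⟩, h3, h4⟩
      rw [alg_iff hG h1 h2] at h3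
      refine ⟨(hmem π h1).2 ⟨h3.1, fun σ hσ hc => ?_⟩, h2, h3.2⟩
      have h5 := h4 σ hσ
      rw [Bool.not_eq_true', ← Bool.not_eq_true, alg_iff (by omega) ((hF σ).1 hσ).2.1 h1] at h5
      exact h5 ⟨hg1' σ hσ, hc⟩

/-- the bound given by a list of thresholds -/
def hl (l : List ℕ) (n : ℕ) : ℕ := 4 + (l.filter (fun r => decide (r ≤ n))).length

theorem inPP_hl (l : List ℕ) : InPP (PatternPPM (cl (hl l))) := by
  refine inPP_cl (G := 4 + l.length) (N := l.sum) (by omega) (fun n => ?_) (fun n hn => ?_)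
  · have := List.length_filter_le (fun r => decide (r ≤ n)) l
    rw [hl]; omega
  · rw [hl, List.filter_eq_self.2]
    intro r hr
    have := List.le_sum_of_mem hr
    rw [decide_eq_true_eq]
    omega

/-- The length of the pattern of an instance given as a bit string. -/
noncomputable def plen (y : List Bool) : ℕ := by
  classical
  exact if h : ∃ p : List ℕ × List ℕ, bits p = y then h.choose.1.length else 0

theorem plen_bits (p : List ℕ × List ℕ) : plen (bits p) = p.1.length := by
  have h : ∃ q : List ℕ × List ℕ, bits q = bits p := ⟨p, rfl⟩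
  rw [plen, dif_pos h]
  have := h.choose_spec
  rw [bits_injective this]

theorem lang_congr {C C' : Set (List ℕ)} {y : List Bool} {N : ℕ} (hy : plen y < N)
    (h : ∀ σ : List ℕ, σ.length < N → (σ ∈ C ↔ σ ∈ C')) :
    y ∈ lang (PatternPPM C) ↔ y ∈ lang (PatternPPM C') := by
  have key : ∀ C C' : Set (List ℕ), (∀ σ : List ℕ, σ.length < N → (σ ∈ C ↔ σ ∈ C')) →
      y ∈ lang (PatternPPM C) → y ∈ lang (PatternPPM C') := by
    rintro C C' h ⟨p, rfl, h1, h2, h3⟩
    rw [plen_bits] at hy
    exact ⟨p, rfl, (h _ hy).1 h1, h2, h3⟩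
  exact ⟨key C C' h, key C' C (fun σ hσ => (h σ hσ).symm)⟩

/-- If some language in `NP` is not in `P`, there is a permutation class of unbounded grid-width
whose pattern problem is not `NP`-hard. -/
theorem exists_class {L : Set (List Bool)} (hL : InNP L) (hL' : ¬ InP L) :
    ∃ C, PermClass C ∧ UnboundedGW C ∧ ¬ NPHardP (PatternPPM C) := by
  classical
  -- enumeration of the polynomial-time functions
  have hcount := NPC.PIso.countable_polyTime
  have hne : {f : List Bool → List Bool | PolyTime f}.Nonempty := ⟨_, polyTime_id⟩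
  obtain ⟨F, hF⟩ := hcount.exists_eq_range hne
  have hFp : ∀ i, PolyTime (F i) := fun i => by
    have : F i ∈ {f : List Bool → List Bool | PolyTime f} := by rw [hF]; exact ⟨i, rfl⟩
    exact this
  have hex : ∀ (l : List ℕ) (i : ℕ), ∃ x, ¬ (x ∈ L ↔ F i x ∈ lang (PatternPPM (cl (hl l)))) := by
    intro l i
    by_contra hcon
    push Not at hcon
    exact hL' (InP.of_reduces ⟨F i, hFp i, hcon⟩ (inPP_hl l))
  choose X hX using hex
  obtain ⟨next, hnext⟩ : ∃ next : List ℕ → ℕ, ∀ l, next l = l.sum + plen (F l.length (X l l.length)) + 1 :=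
    ⟨_, fun _ => rfl⟩
  obtain ⟨Ls, hL0, hLs⟩ : ∃ Ls : ℕ → List ℕ, Ls 0 = [] ∧ ∀ i, Ls (i + 1) = Ls i ++ [next (Ls i)] :=
    ⟨fun i => Nat.rec [] (fun _ l => l ++ [next l]) i, rfl, fun _ => rfl⟩
  have hlen : ∀ i, (Ls i).length = i := by
    intro i
    induction i with
    | zero => rw [hL0]; rfl
    | succ i ih => rw [hLs]; simp [ih]
  have hge : ∀ i, i ≤ (Ls i).sum := by
    intro i
    induction i with
    | zero => omega
    | succ i ih => rw [hLs, List.sum_append, List.sum_singleton, hnext]; omega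
  have hmono : ∀ i j, i ≤ j → (Ls i).sum ≤ (Ls j).sum := by
    intro i j hij
    induction j, hij using Nat.le_induction with
    | base => exact le_rfl
    | succ j hij ih => rw [hLs, List.sum_append]; omega
  have hstep : ∀ i n, n < next (Ls i) → hl (Ls (i + 1)) n = hl (Ls i) n := by
    intro i n hn
    rw [hLs, hl, hl, List.filter_append]
    have : List.filter (fun r => decide (r ≤ n)) [next (Ls i)] = [] := by
      rw [List.filter_eq_nil_iff]
      intro r hr
      rw [List.mem_singleton] at hr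
      rw [decide_eq_true_eq]
      omega
    rw [this, List.append_nil]
  have hstab : ∀ i m n, i ≤ m → n ≤ (Ls i).sum → hl (Ls m) n = hl (Ls i) n := by
    intro i m n him hn
    induction m, him using Nat.le_induction with
    | base => rfl
    | succ m him ih =>
      rw [hstep m n ?_, ih]
      have := hmono i m him
      rw [hnext]; omega
  obtain ⟨h, hh⟩ : ∃ h : ℕ → ℕ, ∀ n, h n = hl (Ls n) n := ⟨_, fun _ => rfl⟩
  have hagree : ∀ i n, n < next (Ls i) → h n = hl (Ls i) n := by
    intro i n hn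
    rw [hh]
    have h1 : hl (Ls (max n (i + 1))) n = hl (Ls n) n := hstab n _ n (le_max_left _ _) (hge n)
    have h2 : hl (Ls (max n (i + 1))) n = hl (Ls (i + 1)) n := by
      refine hstab (i + 1) _ n (le_max_right _ _) ?_
      rw [hLs, List.sum_append, List.sum_singleton]
      omega
    rw [← h1, h2, hstep i n hn]
  refine ⟨cl h, cl_class h, cl_unbounded (fun n => ?_) (fun G => ?_), ?_⟩
  · rw [hh, hl]; omega
  · refine ⟨(Ls G).sum + G, fun n hn => ?_⟩
    rw [hh]
    have h1 : ∀ m, G ≤ m → G ≤ hl (Ls m) n := by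
      intro m hm
      induction m, hm using Nat.le_induction with
      | base =>
        rw [hl, List.filter_eq_self.2, hlen]
        · omega
        · intro r hr
          have := List.le_sum_of_mem hr
          rw [decide_eq_true_eq]
          omega
      | succ m hm ih =>
        refine ih.trans ?_
        rw [hLs, hl, hl, List.filter_append, List.length_append]
        omega
    exact h1 n (by omega)
  · intro hhard
    obtain ⟨f, hf, hred⟩ := hhard L hL
    obtain ⟨i, rfl⟩ : f ∈ Set.range F := by rw [← hF]; exact hf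
    have hbad := hX (Ls i) i
    apply hbad
    rw [hred]
    refine lang_congr (N := next (Ls i)) ?_ fun σ hσ => ?_
    · rw [hnext, hlen]; omega
    · exact cl_congr (fun n hn => hagree i n hn) hσ

/-- If `P = NP`, all nontrivial pattern problems are `NP`-hard. -/
theorem hard_of_eq (hPNP : ∀ L, InNP L → InP L) {C : Set (List ℕ)} (hC : PermClass C)
    (hU : UnboundedGW C) : NPHardP (PatternPPM C) := by
  obtain ⟨π, hπC, hπ⟩ := hU 0
  have hperm := hC.1 π hπC
  have hpos : 0 < π.length := by
    by_contra h0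
    have : π = [] := List.length_eq_zero_iff.1 (by omega)
    subst this
    have := (gw_le_iff hperm (g := 1) le_rfl).2 (Or.inl rfl)
    -- the grid-width of the empty permutation is zero
    have h1 : {w | ∃ t : GTree, t.leaves.Perm (List.range ([] : List ℕ).length) ∧
        t.width [] = w} = ∅ := by
      ext w
      simp only [Set.mem_ofPred_eq, Set.mem_empty_iff_false, iff_false]
      rintro ⟨t, ht, -⟩
      rw [List.length_nil, List.range_zero] at ht
      exact leaves_ne_nil t ht.eq_nil
    rw [gw, h1] at hπ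
    simp at hπ
  have h0 : IsPerm [0] := List.Perm.refl _
  have hmem : ([0] : List ℕ) ∈ C := by
    refine hC.2 π hπC [0] h0 ⟨fun _ => ⟨0, hpos⟩, ?_, ?_⟩
    · intro i j hij
      have hi := i.2
      have hj := j.2
      simp only [List.length_singleton] at hi hj
      have : (i : ℕ) < j := hij
      omega
    · intro i j
      have hi := i.2
      have hj := j.2
      simp only [List.length_singleton] at hi hj
      have : i = j := Fin.ext (by omega)
      subst this
      simp
  intro L hL
  obtain ⟨V, hV, hVL⟩ := hPNP L hL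
  refine ⟨fun x => if V x = [true] then bits (([0], [0]) : List ℕ × List ℕ)
    else bits (([0], []) : List ℕ × List ℕ), ?_, fun x => ?_⟩
  · refine polyTime_of_poly' ?_
    have h1 := poly_of_polyTime hV
    fun_prop
  · rw [hVL x]
    by_cases h : V x = [true]
    · simp only [h, if_true, true_iff]
      exact ⟨_, rfl, hmem, h0, Contains.refl _⟩
    · simp only [h, if_false, false_iff]
      rintro ⟨p, hp, -, -, hc⟩
      have := bits_injective hp
      subst this
      have := hc.length_le
      simp at this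

end Pool.Agent.H593R3.PPM
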