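import Pool.Agent.H593R3.PPM.Gw

/-!
# The multiscale arcs: basic facts
-/

namespace Pool.Agent.H593R3.PPM

open Finset

/-- The end points of the arcs of scale `w`. -/
def ep (R w i : ℕ) : ℕ := R ^ (2 * w - 1) * (1 + R * i)

/-- The points: the points `(2ℓ+1, 2ℓ+1)` of the diagonal, and, for the scales `1 ≤ w ≤ t`, the
arcs. -/
def IsPt (R t M : ℕ) (v : ℕ × ℕ) : Prop :=
  (∃ l < M, v = (2 * l + 1, 2 * l + 1)) ∨
    ∃ w, 1 ≤ w ∧ w ≤ t ∧ ∃ i, ep R w (i + 1) < M ∧ v = (2 * ep R w i, 2 * ep R w (i + 1))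

open Classical in
/-- The set of the points. -/
noncomputable def Pts (R t M : ℕ) : Finset (ℕ × ℕ) :=
  ((range (2 * M)) ×ˢ (range (2 * M))).filter (IsPt R t M)

variable {R t M w : ℕ}

theorem ep_succ (hw : 1 ≤ w) (i : ℕ) : ep R w (i + 1) = ep R w i + R ^ (2 * w) := by
  obtain ⟨k, rfl⟩ : ∃ k, w = k + 1 := ⟨w - 1, by omega⟩
  have e1 : 2 * (k + 1) - 1 = 2 * k + 1 := by omega
  have e2 : 2 * (k + 1) = 2 * k + 1 + 1 := by omega
  rw [ep, ep, e1, e2, pow_succ]
  ring

theorem ep_add (hw : 1 ≤ w) (i j : ℕ) : ep R w (i + j) = ep R w i + j * R ^ (2 * w) := by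
  induction j with
  | zero => simp
  | succ j ih => rw [← Nat.add_assoc, ep_succ hw, ih]; ring

theorem ep_lt_succ (hR : 2 ≤ R) (hw : 1 ≤ w) (i : ℕ) : ep R w i < ep R w (i + 1) := by
  rw [ep_succ hw]
  have : 0 < R ^ (2 * w) := Nat.pow_pos (by omega)
  omega

open Classical in
theorem mem_pts {v : ℕ × ℕ} (hR : 2 ≤ R) : v ∈ Pts R t M ↔ IsPt R t M v := by
  rw [Pts, mem_filter, mem_product, mem_range, mem_range]
  constructor
  · exact fun h => h.2
  · intro h
    refine ⟨?_, h⟩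
    rcases h with ⟨l, hl, rfl⟩ | ⟨w, hw, -, i, hi, rfl⟩
    · constructor <;> dsimp only <;> omega
    · have := ep_lt_succ hR hw i
      constructor <;> dsimp only <;> omega

/-- `v` is of scale at most `w` -/
def Low (R w : ℕ) (v : ℕ × ℕ) : Prop := v.2 ≤ v.1 + 2 * R ^ (2 * w)

theorem pt_le (hR : 2 ≤ R) {v : ℕ × ℕ} (hv : v ∈ Pts R t M) : v.1 ≤ v.2 := by
  rw [mem_pts hR] at hv
  rcases hv with ⟨l, hl, rfl⟩ | ⟨w, hw, -, i, hi, rfl⟩
  · exact le_rfl
  · have := ep_lt_succ hR hw i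
    dsimp only
    omega

open Classical in
theorem pt_snd_lt (hR : 2 ≤ R) {v : ℕ × ℕ} (hv : v ∈ Pts R t M) : v.2 < 2 * M := by
  rw [Pts, mem_filter, mem_product, mem_range, mem_range] at hv
  exact hv.1.2

theorem low_arc (hR : 2 ≤ R) {w w' i : ℕ} (hw' : 1 ≤ w') :
    Low R w (2 * ep R w' i, 2 * ep R w' (i + 1)) ↔ w' ≤ w := by
  rw [Low]
  dsimp only
  rw [ep_succ hw']
  have : R ^ (2 * w') ≤ R ^ (2 * w) ↔ 2 * w' ≤ 2 * w := Nat.pow_le_pow_iff_right (by omega)
  omega

theorem low_all (hR : 2 ≤ R) {v : ℕ × ℕ} (hv : v ∈ Pts R t M) : Low R t v := by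
  rw [mem_pts hR] at hv
  rcases hv with ⟨l, hl, rfl⟩ | ⟨w, hw, hwt, i, hi, rfl⟩
  · simp [Low]
  · exact (low_arc hR hw).2 hwt

theorem Low.mono (hR : 2 ≤ R) {w w' : ℕ} {v : ℕ × ℕ} (h : Low R w v) (hw : w ≤ w') :
    Low R w' v := by
  have : R ^ (2 * w) ≤ R ^ (2 * w') := Nat.pow_le_pow_right (by omega) (by omega)
  rw [Low] at *
  omega

/-- Points of scale more than `w` have coordinates divisible by `2 R ^ (2 w + 1)`. -/
theorem dvd_of_not_low (hR : 2 ≤ R) {v : ℕ × ℕ} (hv : v ∈ Pts R t M) {w : ℕ} (h : ¬ Low R w v) :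
    2 * R ^ (2 * w + 1) ∣ v.1 ∧ 2 * R ^ (2 * w + 1) ∣ v.2 := by
  rw [mem_pts hR] at hv
  rcases hv with ⟨l, hl, rfl⟩ | ⟨w', hw', hwt, i, hi, rfl⟩
  · exact absurd (by simp [Low]) h
  · rw [low_arc hR hw'] at h
    have : R ^ (2 * w + 1) ∣ R ^ (2 * w' - 1) := pow_dvd_pow _ (by omega)
    exact ⟨Nat.mul_dvd_mul_left 2 (this.mul_right _), Nat.mul_dvd_mul_left 2 (this.mul_right _)⟩

/-- Points of scale at most zero are on the diagonal. -/
theorem low_zero (hR : 2 ≤ R) {v : ℕ × ℕ} (hv : v ∈ Pts R t M) (h : Low R 0 v) : v.1 = v.2 := by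
  rw [mem_pts hR] at hv
  rcases hv with ⟨l, hl, rfl⟩ | ⟨w', hw', hwt, i, hi, rfl⟩
  · rfl
  · rw [low_arc hR hw'] at h
    omega

/-- Two arcs of the same scale crossing the same place are equal. -/
theorem cross_unique (hR : 2 ≤ R) {w i j c : ℕ} (hw : 1 ≤ w) (h1 : 2 * ep R w i < c)
    (h2 : c ≤ 2 * ep R w (i + 1)) (h3 : 2 * ep R w j < c) (h4 : c ≤ 2 * ep R w (j + 1)) :
    i = j := by
  have key : ∀ i j, i < j → 2 * ep R w j < c → c ≤ 2 * ep R w (i + 1) → False := by
    intro i j hij h3 h2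
    obtain ⟨d, rfl⟩ : ∃ d, j = i + 1 + d := ⟨j - (i + 1), by omega⟩
    rw [ep_add hw (i + 1) d] at h3
    have := Nat.zero_le (d * R ^ (2 * w))
    omega
  rcases lt_trichotomy i j with h | h | h
  · exact (key i j h h3 h2).elim
  · exact h
  · exact (key j i h h1 h4).elim

theorem exact_scale (hR : 2 ≤ R) {v : ℕ × ℕ} (hv : v ∈ Pts R t M) {w : ℕ} (h : ¬ Low R w v)
    (h' : Low R (w + 1) v) : ∃ i, v = (2 * ep R (w + 1) i, 2 * ep R (w + 1) (i + 1)) := by
  rw [mem_pts hR] at hv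
  rcases hv with ⟨l, hl, rfl⟩ | ⟨w', hw', hwt, i, hi, rfl⟩
  · exact absurd (by simp [Low]) h
  · rw [low_arc hR hw'] at h h'
    obtain rfl : w' = w + 1 := by omega
    exact ⟨i, rfl⟩

theorem ep_inj (hR : 2 ≤ R) {w w' i i' : ℕ} (hw : 1 ≤ w) (hw' : 1 ≤ w')
    (h : ep R w i = ep R w' i') : w = w' ∧ i = i' := by
  have hRp : 0 < R := by omega
  have key : ∀ w w' i i', 1 ≤ w → ep R w i = ep R w' i' → w < w' → False := by
    intro w w' i i' hw h hlt
    obtain ⟨k, rfl⟩ : ∃ k, w = k + 1 := ⟨w - 1, by omega⟩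
    obtain ⟨d, rfl⟩ : ∃ d, w' = k + 2 + d := ⟨w' - (k + 2), by omega⟩
    have e1 : 2 * (k + 1) - 1 = 2 * k + 1 := by omega
    have e2 : 2 * (k + 2 + d) - 1 = (2 * k + 1) + (2 * d + 2) := by omega
    rw [ep, ep, e1, e2, pow_add R (2 * k + 1) (2 * d + 2), mul_assoc] at h
    have h2 := Nat.eq_of_mul_eq_mul_left (Nat.pow_pos hRp) h
    have h3 : R ∣ 1 + R * i := by
      rw [h2]
      exact (dvd_pow_self R (by omega)).mul_right _
    have h4 : R ∣ 1 := (Nat.dvd_add_left (dvd_mul_right R i)).1 h3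
    have := Nat.le_of_dvd one_pos h4
    omega
  have hww : w = w' := by
    rcases lt_trichotomy w w' with h1 | h1 | h1
    · exact (key w w' i i' hw h h1).elim
    · exact h1
    · exact (key w' w i' i hw' h.symm h1).elim
  subst hww
  refine ⟨rfl, ?_⟩
  rw [ep, ep] at h
  have h2 := Nat.eq_of_mul_eq_mul_left (Nat.pow_pos hRp) h
  have h3 : R * i = R * i' := by omega
  exact Nat.eq_of_mul_eq_mul_left hRp h3

theorem injOn_fst (hR : 2 ≤ R) : Set.InjOn Prod.fst ((Pts R t M : Finset (ℕ × ℕ)) : Set (ℕ × ℕ)) := by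
  intro u hu v hv h
  rw [mem_coe, mem_pts hR] at hu hv
  rcases hu with ⟨l, hl, rfl⟩ | ⟨w, hw, hwt, i, hi, rfl⟩ <;>
    rcases hv with ⟨l', hl', rfl⟩ | ⟨w', hw', hwt', i', hi', rfl⟩ <;> dsimp only at h
  · obtain rfl : l = l' := by omega
    rfl
  · omega
  · omega
  · obtain ⟨rfl, rfl⟩ := ep_inj hR (i := i) (i' := i') hw hw' (by omega)
    rfl

theorem injOn_snd (hR : 2 ≤ R) : Set.InjOn Prod.snd ((Pts R t M : Finset (ℕ × ℕ)) : Set (ℕ × ℕ)) := by
  intro u hu v hv h
  rw [mem_coe, mem_pts hR] at hu hv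
  rcases hu with ⟨l, hl, rfl⟩ | ⟨w, hw, hwt, i, hi, rfl⟩ <;>
    rcases hv with ⟨l', hl', rfl⟩ | ⟨w', hw', hwt', i', hi', rfl⟩ <;> dsimp only at h
  · obtain rfl : l = l' := by omega
    rfl
  · omega
  · omega
  · obtain ⟨rfl, h2⟩ := ep_inj hR (i := i + 1) (i' := i' + 1) hw hw' (by omega)
    obtain rfl : i = i' := by omega
    rfl

theorem diag_mem (hR : 2 ≤ R) {l : ℕ} (hl : l < M) : (2 * l + 1, 2 * l + 1) ∈ Pts R t M :=
  (mem_pts hR).2 (Or.inl ⟨l, hl, rfl⟩)

theorem arc_mem (hR : 2 ≤ R) {w i : ℕ} (hw : 1 ≤ w) (hwt : w ≤ t) (hi : ep R w (i + 1) < M) :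
    (2 * ep R w i, 2 * ep R w (i + 1)) ∈ Pts R t M :=
  (mem_pts hR).2 (Or.inr ⟨w, hw, hwt, i, hi, rfl⟩)

/-! ## Upper bound for all sets of points -/

theorem crossings (hR : 2 ≤ R) {v : ℕ × ℕ} (hv : v ∈ Pts R t M) :
    ∃ w ≤ t, (w = 0 → v.1 = v.2) ∧ (w ≠ 0 → ∃ i, v = (2 * ep R w i, 2 * ep R w (i + 1))) := by
  rw [mem_pts hR] at hv
  rcases hv with ⟨l, hl, rfl⟩ | ⟨w, hw, hwt, i, hi, rfl⟩
  · exact ⟨0, Nat.zero_le _, fun _ => rfl, fun h => absurd rfl h⟩
  · exact ⟨w, hwt, fun h => by omega, fun _ => ⟨i, rfl⟩⟩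

theorem bl_all (hR : 2 ≤ R) {S : Finset (ℕ × ℕ)} (hS : S ⊆ Pts R t M) :
    Bl Prod.fst Prod.snd S (t + 1) S := by
  have hcr : ∀ v ∈ S, ∃ w ≤ t, (w = 0 → v.1 = v.2) ∧
      (w ≠ 0 → ∃ i, v = (2 * ep R w i, 2 * ep R w (i + 1))) := fun v hv => crossings hR (hS hv)
  choose! sc hsc1 hsc2 hsc3 using hcr
  have key : ∀ c, Bl Prod.fst Prod.snd S (t + 1) (S.filter (fun v => v.1 < c)) := by
    intro c
    induction c with
    | zero => left; simp
    | succ c ih =>
      have e : S.filter (fun v => v.1 < c + 1) =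
          S.filter (fun v => v.1 < c) ∪ S.filter (fun v => v.1 = c) := by
        ext v
        simp only [mem_filter, mem_union]
        constructor
        · rintro ⟨h1, h2⟩
          rcases Nat.lt_succ_iff_lt_or_eq.1 h2 with h3 | h3
          · exact Or.inl ⟨h1, h3⟩
          · exact Or.inr ⟨h1, h3⟩
        · rintro (⟨h1, h2⟩ | ⟨h1, h2⟩)
          · exact ⟨h1, by omega⟩
          · exact ⟨h1, by omega⟩
      have hX : Cvx Prod.fst S (S.filter (fun v => v.1 < c + 1)) (t + 1) := by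
        refine ⟨fun _ => 0, fun _ _ => Nat.succ_pos _, ?_⟩
        intro u hu v hv _ w hw h1 h2
        rw [mem_filter] at hv ⊢
        exact ⟨⟨hw, by omega⟩, rfl⟩
      have hY : Cvx Prod.snd S (S.filter (fun v => v.1 < c + 1)) (t + 1) := by
        refine ⟨fun v => if v.2 < c + 1 then 0 else sc v, ?_, ?_⟩
        · intro v hv
          dsimp only
          split_ifs
          · omega
          · have := hsc1 v (mem_filter.1 hv).1
            omega
        · intro u hu v hv huv w hw h1 h2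
          rw [mem_filter] at hu hv
          dsimp only at huv ⊢
          by_cases hv2 : v.2 < c + 1
          · have hw2 : w.2 < c + 1 := by omega
            have hu2 : u.2 < c + 1 := by omega
            rw [if_pos hw2, if_pos hu2, mem_filter]
            have := pt_le hR (hS hw)
            exact ⟨⟨hw, by omega⟩, rfl⟩
          · exfalso
            rw [if_neg hv2] at huv
            have hsv : sc v ≠ 0 := by
              intro h
              have := hsc2 v hv.1 h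
              omega
            have hu2 : ¬ u.2 < c + 1 := by
              intro h
              rw [if_pos h] at huv
              exact hsv huv.symm
            rw [if_neg hu2] at huv
            have hsu : sc u ≠ 0 := by rw [huv]; exact hsv
            obtain ⟨i, hi⟩ := hsc3 u hu.1 hsu
            obtain ⟨j, hj⟩ := hsc3 v hv.1 hsv
            rw [huv] at hi
            have e1 := congrArg Prod.fst hi
            have e2 := congrArg Prod.snd hi
            have e3 := congrArg Prod.fst hj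
            have e4 := congrArg Prod.snd hj
            dsimp only at e1 e2 e3 e4
            have := cross_unique (c := c + 1) hR (i := i) (j := j) (w := sc v) (by omega)
              (by omega) (by omega) (by omega) (by omega)
            subst this
            omega
      rw [e] at hX hY ⊢
      refine ih.join (Bl.small (filter_subset _ _) ?_) ?_ hX hY
      · rw [card_le_one]
        intro a ha b hb
        rw [mem_filter] at ha hb
        exact injOn_fst hR (hS ha.1) (hS hb.1) (ha.2.trans hb.2.symm)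
      · rw [disjoint_left]
        intro a ha hb
        rw [mem_filter] at ha hb
        omega
  have := key (2 * M)
  have e : S.filter (fun v => v.1 < 2 * M) = S := by
    rw [filter_eq_self]
    intro v hv
    have h1 := pt_le hR (hS hv)
    have h2 := pt_snd_lt hR (hS hv)
    omega
  rwa [e] at this

end Pool.Agent.H593R3.PPM
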